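import Mathlib

set_option autoImplicit false
set_option linter.unusedSectionVars false

open Filter Topology

namespace Pool.Agent.H77SP

universe u v

section Defs

variable (A : Type u) [NonUnitalNormedRing A] [NormedSpace ℂ A]
variable (X : Type v) [NormedAddCommGroup X] [NormedSpace ℂ X]

/-- The structure of a Banach `A`-bimodule on the Banach space `X`: `L a x = a · x` and
`R a x = x · a` are bounded bilinear, and the bimodule identities hold. -/
structure Bimod where
  L : A →L[ℂ] X →L[ℂ] X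
  R : A →L[ℂ] X →L[ℂ] X
  L_mul : ∀ a b x, L (a * b) x = L a (L b x)
  R_mul : ∀ a b x, R (a * b) x = R b (R a x)
  L_R : ∀ a b x, R b (L a x) = L a (R b x)

variable {A X}

/-- The left action on the dual bimodule: `(a · f)(x) = f(x · a)`. -/
noncomputable def Bimod.dl (M : Bimod A X) (a : A) (f : X →L[ℂ] ℂ) : X →L[ℂ] ℂ := f.comp (M.R a)

/-- The right action on the dual bimodule: `(f · a)(x) = f(a · x)`. -/
noncomputable def Bimod.dr (M : Bimod A X) (f : X →L[ℂ] ℂ) (a : A) : X →L[ℂ] ℂ := f.comp (M.L a)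

@[simp] lemma Bimod.dl_apply (M : Bimod A X) (a : A) (f : X →L[ℂ] ℂ) (x : X) :
    M.dl a f x = f (M.R a x) := rfl

@[simp] lemma Bimod.dr_apply (M : Bimod A X) (a : A) (f : X →L[ℂ] ℂ) (x : X) :
    M.dr f a x = f (M.L a x) := rfl

/-- `D : A → X^*` is a derivation: `D(ab) = a · D(b) + D(a) · b`. -/
def Bimod.IsDerivation (M : Bimod A X) (D : A →L[ℂ] (X →L[ℂ] ℂ)) : Prop :=
  ∀ a b, D (a * b) = M.dl a (D b) + M.dr (D a) b

/-- `D : A → X^*` is approximately semi-inner: there are nets `(ξ_i)`, `(η_i)` in `X^*` (indexed by a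
directed set) with `D(a) = lim_i (a · ξ_i - η_i · a)` in norm for every `a ∈ A`. -/
def Bimod.ApproxSemiInner (M : Bimod A X) (D : A →L[ℂ] (X →L[ℂ] ℂ)) : Prop :=
  ∃ (I : Type u) (_ : Preorder I) (_ : IsDirected I (· ≤ ·)) (_ : Nonempty I)
    (ξ η : I → (X →L[ℂ] ℂ)),
    ∀ a, Tendsto (fun i => M.dl a (ξ i) - M.dr (η i) a) atTop (𝓝 (D a))

variable (A)

/-- The Banach algebra `A` is approximately semi-amenable: for every Banach `A`-bimodule `X`, every
continuous derivation `A → X^*` is approximately semi-inner. -/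
def ApproxSemiAmenable : Prop :=
  ∀ (X : Type v) [NormedAddCommGroup X] [NormedSpace ℂ X] [CompleteSpace X] (M : Bimod A X)
    (D : A →L[ℂ] (X →L[ℂ] ℂ)), M.IsDerivation D → M.ApproxSemiInner D

end Defs

/-- The existence of the two nets is equivalent to approximability on finite sets (so the universe
of the index set in the definition is immaterial). -/
lemma approxSemiInner_iff {A : Type u} [NonUnitalNormedRing A] [NormedSpace ℂ A]
    {X : Type v} [NormedAddCommGroup X] [NormedSpace ℂ X] (M : Bimod A X)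
    (D : A →L[ℂ] (X →L[ℂ] ℂ)) :
    M.ApproxSemiInner D ↔ ∀ (F : Finset A) (ε : ℝ), 0 < ε →
      ∃ ξ η : X →L[ℂ] ℂ, ∀ a ∈ F, ‖D a - (M.dl a ξ - M.dr η a)‖ < ε := by
  classical
  constructor
  · rintro ⟨I, _, _, _, ξ, η, h⟩ F ε hε
    have h1 : ∀ a ∈ F, ∀ᶠ i in atTop, ‖D a - (M.dl a (ξ i) - M.dr (η i) a)‖ < ε := by
      intro a _
      have := (h a)
      rw [Metric.tendsto_nhds] at this
      filter_upwards [this ε hε] with i hi
      rwa [dist_comm, dist_eq_norm] at hi
    have h2 := (Filter.eventually_all_finset F).2 h1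
    obtain ⟨i, hi⟩ := h2.exists
    exact ⟨ξ i, η i, hi⟩
  · intro h
    choose ξ η hh using fun (q : Finset A × ℕ) => h q.1 (1 / ((q.2 : ℝ) + 1)) (by positivity)
    refine ⟨Finset A × ℕ, inferInstance, inferInstance, inferInstance, ξ, η, fun a => ?_⟩
    rw [Metric.tendsto_nhds]
    intro ε hε
    obtain ⟨N, hN⟩ := exists_nat_one_div_lt hε
    filter_upwards [eventually_ge_atTop (({a} : Finset A), N)] with q hq
    rw [dist_comm, dist_eq_norm]
    have h3 := hh q a (hq.1 (Finset.mem_singleton_self a))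
    refine lt_trans (lt_of_lt_of_le h3 ?_) hN
    have : (N : ℝ) ≤ q.2 := by exact_mod_cast hq.2
    exact one_div_le_one_div_of_le (by positivity) (by linarith)

/-! The module used for the negative answer -/

section Neg

variable {A : Type u} [NonUnitalNormedRing A] [NormedSpace ℂ A] [IsScalarTower ℂ A A]
  [SMulCommClass ℂ A A]

/-- The Banach space of bounded bilinear forms on `A`. -/
def FrmA (A : Type u) [NonUnitalNormedRing A] [NormedSpace ℂ A] : Type u :=
  A →L[ℂ] A →L[ℂ] ℂ

noncomputable instance : NormedAddCommGroup (FrmA A) :=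
  inferInstanceAs (NormedAddCommGroup (A →L[ℂ] A →L[ℂ] ℂ))
noncomputable instance : NormedSpace ℂ (FrmA A) :=
  inferInstanceAs (NormedSpace ℂ (A →L[ℂ] A →L[ℂ] ℂ))
instance : CompleteSpace (FrmA A) := inferInstanceAs (CompleteSpace (A →L[ℂ] A →L[ℂ] ℂ))

/-- The bilinear map underlying a form. -/
def FrmA.bl (U : FrmA A) : A →L[ℂ] A →L[ℂ] ℂ := U

/-- the form from a bilinear map -/
def FrmA.of (U : A →L[ℂ] A →L[ℂ] ℂ) : FrmA A := U

lemma FrmA.bl_of (U : A →L[ℂ] A →L[ℂ] ℂ) : (FrmA.of U).bl = U := rfl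
lemma FrmA.bl_add (U V : FrmA A) (x y : A) : (U + V).bl x y = U.bl x y + V.bl x y := rfl
lemma FrmA.bl_smul (c : ℂ) (U : FrmA A) (x y : A) : (c • U).bl x y = c * U.bl x y := rfl
lemma FrmA.bl_zero (x y : A) : (0 : FrmA A).bl x y = 0 := rfl
lemma FrmA.ext {U V : FrmA A} (h : ∀ x y, U.bl x y = V.bl x y) : U = V :=
  ContinuousLinearMap.ext fun x => ContinuousLinearMap.ext fun y => h x y
lemma FrmA.norm_bl (U : FrmA A) : ‖U.bl‖ = ‖U‖ := rfl

lemma FrmA.continuous_bl (x y : A) : Continuous fun U : FrmA A => U.bl x y := by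
  have : Continuous fun U : A →L[ℂ] A →L[ℂ] ℂ => U x y := by fun_prop
  exact this

variable (A) in
/-- Bounded bilinear forms `U` on `A` with `U(xy, z) = U(x, yz)`. -/
def Bal : Submodule ℂ (FrmA A) where
  carrier := {U | ∀ x y z, U.bl (x * y) z = U.bl x (y * z)}
  add_mem' := by
    intro U V hU hV x y z
    rw [FrmA.bl_add, FrmA.bl_add, hU x y z, hV x y z]
  zero_mem' := by
    intro x y z
    rw [FrmA.bl_zero, FrmA.bl_zero]
  smul_mem' := by
    intro c U hU x y z
    rw [FrmA.bl_smul, FrmA.bl_smul, hU x y z]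

lemma mem_Bal {U : FrmA A} : U ∈ Bal A ↔ ∀ x y z, U.bl (x * y) z = U.bl x (y * z) := Iff.rfl

instance : CompleteSpace (Bal A) := by
  have h : IsClosed ((Bal A : Submodule ℂ (FrmA A)) : Set (FrmA A)) := by
    have : ((Bal A : Submodule ℂ (FrmA A)) : Set (FrmA A)) =
        ⋂ (x : A) (y : A) (z : A), {U | U.bl (x * y) z = U.bl x (y * z)} := by
      ext U
      simp only [SetLike.mem_coe, Set.mem_iInter]
      exact Iff.rfl
    rw [this]
    refine isClosed_iInter fun x => isClosed_iInter fun y => isClosed_iInter fun z => ?_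
    exact isClosed_eq (FrmA.continuous_bl _ _) (FrmA.continuous_bl _ _)
  exact h.completeSpace_coe

/-- The Banach space `Bal A × A^*`. -/
abbrev ZZ (A : Type u) [NonUnitalNormedRing A] [NormedSpace ℂ A] [IsScalarTower ℂ A A]
    [SMulCommClass ℂ A A] : Type u :=
  (Bal A) × (A →L[ℂ] ℂ)

/-- the bilinear form of the first component -/
noncomputable def bq (U : Bal A) : A →L[ℂ] A →L[ℂ] ℂ := FrmA.bl (U : FrmA A)

lemma bq_add (U V : Bal A) (x y : A) : bq (U + V) x y = bq U x y + bq V x y := rfl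
lemma bq_smul (c : ℂ) (U : Bal A) (x y : A) : bq (c • U) x y = c * bq U x y := rfl
lemma bq_zero (x y : A) : bq (0 : Bal A) x y = 0 := rfl
lemma bq_bal (U : Bal A) (x y z : A) : bq U (x * y) z = bq U x (y * z) := U.2 x y z
lemma bq_ext {U V : Bal A} (h : ∀ x y, bq U x y = bq V x y) : U = V :=
  Subtype.ext (FrmA.ext h)
lemma norm_bq (U : Bal A) : ‖bq U‖ = ‖U‖ := rfl
lemma bq_sum {ι : Type*} (s : Finset ι) (U : ι → Bal A) (x y : A) :
    bq (∑ i ∈ s, U i) x y = ∑ i ∈ s, bq (U i) x y := by
  classical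
  induction s using Finset.induction_on with
  | empty => simp [bq_zero]
  | insert i s hi ih => rw [Finset.sum_insert hi, Finset.sum_insert hi, bq_add, ih]

/-- An element of `Bal A` from a bilinear map. -/
def mkBal (U : A →L[ℂ] A →L[ℂ] ℂ) (h : ∀ x y z, U (x * y) z = U x (y * z)) : Bal A :=
  ⟨FrmA.of U, h⟩

lemma bq_mkBal (U : A →L[ℂ] A →L[ℂ] ℂ) (h : ∀ x y z, U (x * y) z = U x (y * z)) :
    bq (mkBal U h) = U := rfl

/-- `U ↦ U(a ·, ·)`. -/
noncomputable def balR (a : A) (U : Bal A) : Bal A :=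
  mkBal ((bq U).comp (ContinuousLinearMap.mul ℂ A a)) (by
    intro x y z
    have h := bq_bal U (a * x) y z
    simp only [ContinuousLinearMap.comp_apply, ContinuousLinearMap.mul_apply']
    rw [← mul_assoc, h])

lemma balR_apply (a : A) (U : Bal A) (x y : A) : bq (balR a U) x y = bq U (a * x) y := rfl

/-- the right action of `ZZ` -/
noncomputable def zR : A →L[ℂ] ZZ A →L[ℂ] ZZ A :=
  LinearMap.mkContinuous₂
    (LinearMap.mk₂ ℂ (fun (a : A) (x : ZZ A) => ((balR a x.1, bq x.1 a) : ZZ A))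
      (by
        intro a a' x
        refine Prod.ext (bq_ext fun s t => ?_) ?_
        · show bq x.1 ((a + a') * s) t = bq x.1 (a * s) t + bq x.1 (a' * s) t
          rw [add_mul, map_add]
          rfl
        · show bq x.1 (a + a') = bq x.1 a + bq x.1 a'
          exact map_add _ _ _)
      (by
        intro c a x
        refine Prod.ext (bq_ext fun s t => ?_) ?_
        · show bq x.1 ((c • a) * s) t = c * bq x.1 (a * s) t
          rw [smul_mul_assoc, map_smul]
          rfl
        · show bq x.1 (c • a) = c • bq x.1 a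
          exact map_smul _ _ _)
      (by
        intro a x y
        refine Prod.ext (bq_ext fun s t => ?_) ?_
        · rfl
        · rfl)
      (by
        intro c a x
        refine Prod.ext (bq_ext fun s t => ?_) ?_
        · rfl
        · rfl)) 1
    (by
      intro a x
      rw [LinearMap.mk₂_apply, one_mul]
      refine norm_prod_le_iff.2 ⟨?_, ?_⟩
      · show ‖(bq x.1).comp (ContinuousLinearMap.mul ℂ A a)‖ ≤ _
        refine le_trans (ContinuousLinearMap.opNorm_comp_le _ _) ?_
        rw [mul_comm]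
        refine mul_le_mul (ContinuousLinearMap.opNorm_mul_apply_le ℂ A a) ?_ (norm_nonneg _)
          (norm_nonneg _)
        exact norm_fst_le x
      · refine le_trans ((bq x.1).le_opNorm a) ?_
        rw [mul_comm]
        exact mul_le_mul_of_nonneg_left (norm_fst_le x) (norm_nonneg _))

lemma zR_apply (a : A) (x : ZZ A) : zR a x = ((balR a x.1, bq x.1 a) : ZZ A) := rfl

/-- the functional part of the left action -/
noncomputable def zw (a : A) (x : ZZ A) : A →L[ℂ] ℂ :=
  x.2.comp ((ContinuousLinearMap.mul ℂ A).flip a) - (bq x.1).flip a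

lemma zw_apply (a : A) (x : ZZ A) (y : A) : zw a x y = x.2 (y * a) - bq x.1 y a := rfl

/-- the left action of `ZZ` -/
noncomputable def zL : A →L[ℂ] ZZ A →L[ℂ] ZZ A :=
  LinearMap.mkContinuous₂
    (LinearMap.mk₂ ℂ (fun (a : A) (x : ZZ A) => ((0, zw a x) : ZZ A))
      (by
        intro a a' x
        refine Prod.ext (by simp) ?_
        ext y
        show zw (a + a') x y = zw a x y + zw a' x y
        simp only [zw_apply, mul_add, map_add]
        ring)
      (by
        intro c a x
        refine Prod.ext (by simp) ?_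
        ext y
        show zw (c • a) x y = c * zw a x y
        simp only [zw_apply, mul_smul_comm, map_smul, smul_eq_mul]
        ring)
      (by
        intro a x x'
        refine Prod.ext (by simp) ?_
        ext y
        show (x.2 (y * a) + x'.2 (y * a)) - (bq x.1 y a + bq x'.1 y a) =
          (x.2 (y * a) - bq x.1 y a) + (x'.2 (y * a) - bq x'.1 y a)
        ring)
      (by
        intro c a x
        refine Prod.ext (by simp) ?_
        ext y
        show c * x.2 (y * a) - c * bq x.1 y a = c * (x.2 (y * a) - bq x.1 y a)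
        ring)) 2
    (by
      intro a x
      rw [LinearMap.mk₂_apply]
      have h0 : 0 ≤ 2 * ‖a‖ * ‖x‖ := by positivity
      refine norm_prod_le_iff.2 ⟨by simpa using h0, ?_⟩
      refine ContinuousLinearMap.opNorm_le_bound _ h0 fun y => ?_
      show ‖x.2 (y * a) - bq x.1 y a‖ ≤ _
      refine le_trans (norm_sub_le _ _) ?_
      have h1 : ‖x.2 (y * a)‖ ≤ ‖x‖ * (‖y‖ * ‖a‖) :=
        le_trans (x.2.le_opNorm _) (mul_le_mul (norm_snd_le x) (norm_mul_le _ _)
          (norm_nonneg _) (norm_nonneg _))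
      have h2 : ‖bq x.1 y a‖ ≤ ‖x‖ * ‖y‖ * ‖a‖ := by
        refine le_trans ((bq x.1).le_opNorm₂ y a) ?_
        have : ‖bq x.1‖ ≤ ‖x‖ := norm_fst_le x
        gcongr
      nlinarith [h1, h2])

lemma zL_apply (a : A) (x : ZZ A) : zL a x = ((0, zw a x) : ZZ A) := rfl

variable (A) in
/-- The bimodule. -/
noncomputable def zMod : Bimod A (ZZ A) where
  L := zL
  R := zR
  L_mul := by
    intro a b x
    refine Prod.ext rfl ?_
    ext y
    show x.2 (y * (a * b)) - bq x.1 y (a * b) = (x.2 (y * a * b) - bq x.1 (y * a) b) -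
      bq (0 : Bal A) y a
    rw [bq_bal, bq_zero, mul_assoc, sub_zero]
  R_mul := by
    intro a b x
    refine Prod.ext (bq_ext fun s t => ?_) ?_
    · show bq x.1 (a * b * s) t = bq x.1 (a * (b * s)) t
      rw [mul_assoc]
    · ext t
      rfl
  L_R := by
    intro a b x
    refine Prod.ext (bq_ext fun s t => ?_) ?_
    · rfl
    · ext y
      show bq (0 : Bal A) b y = bq x.1 b (y * a) - bq x.1 (b * y) a
      rw [bq_bal, bq_zero, sub_self]

variable (A) in
/-- The derivation `D(a)(U,v) = - v(a)`. -/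
noncomputable def zD : A →L[ℂ] (ZZ A →L[ℂ] ℂ) :=
  LinearMap.mkContinuous₂
    (LinearMap.mk₂ ℂ (fun (a : A) (x : ZZ A) => - x.2 a)
      (by intro a a' x; rw [map_add]; ring)
      (by intro c a x; rw [map_smul, smul_eq_mul, smul_eq_mul]; ring)
      (by
        intro a x x'
        show -(x.2 a + x'.2 a) = - x.2 a + - x'.2 a
        ring)
      (by
        intro c a x
        show -(c * x.2 a) = c * - x.2 a
        ring)) 1
    (by
      intro a x
      rw [LinearMap.mk₂_apply, norm_neg, one_mul, mul_comm]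
      exact le_trans (x.2.le_opNorm a) (mul_le_mul_of_nonneg_right (norm_snd_le x) (norm_nonneg _)))

lemma zD_apply (a : A) (x : ZZ A) : zD A a x = - x.2 a := rfl

lemma zD_der : (zMod A).IsDerivation (zD A) := by
  intro a b
  refine ContinuousLinearMap.ext fun x => ?_
  show - x.2 (a * b) = - bq x.1 a b + - (x.2 (a * b) - bq x.1 a b)
  ring

/-- The criterion for the failure of approximate semi-amenability. -/
theorem not_asa (a : Fin 3 → A) (e : A) (U : Fin 3 → Bal A) (δ : A →L[ℂ] ℂ) (κ : ℂ) (hκ : κ ≠ 0)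
    (h1 : ∀ c, ∑ i, bq (U i) (a i) c = 0)
    (h2 : ∀ c, ∑ i, bq (U i) c (a i) = κ * δ c)
    (h3 : ∀ y, δ (y * e) = δ y) (h4 : δ e = 1) : ¬ ApproxSemiAmenable.{u, u} A := by
  intro H
  obtain ⟨I, _, _, _, ξ, η, hh⟩ := H (ZZ A) (zMod A) (zD A) zD_der
  have hev : ∀ (b : A) (x : ZZ A), Tendsto (fun j => ξ j (zR b x) - η j (zL b x)) atTop
      (𝓝 (- x.2 b)) := by
    intro b x
    have h5 := (hh b)
    have hc : Continuous fun f : ZZ A →L[ℂ] ℂ => f x := by fun_prop
    exact (hc.tendsto _).comp h5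
  have e2 : Tendsto (fun j => ∑ i, (ξ j (zR (a i) (U i, 0)) - η j (zL (a i) (U i, 0)))) atTop
      (𝓝 0) := by
    have := tendsto_finsetSum Finset.univ (fun i (_ : i ∈ Finset.univ) => hev (a i) (U i, 0))
    simpa using this
  have e3 : ∀ j, ∑ i, (ξ j (zR (a i) (U i, 0)) - η j (zL (a i) (U i, 0))) =
      κ * η j (0, δ) := by
    intro j
    rw [Finset.sum_sub_distrib, ← map_sum, ← map_sum]
    have s1 : ∑ i, zR (a i) ((U i, 0) : ZZ A) = 0 := by
      refine Prod.ext (bq_ext fun s t => ?_) ?_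
      · rw [Prod.fst_sum, bq_sum]
        show ∑ i, bq (U i) (a i * s) t = 0
        rw [← h1 (s * t)]
        exact Finset.sum_congr rfl fun i _ => bq_bal (U i) (a i) s t
      · rw [Prod.snd_sum]
        ext s
        rw [sum_apply]
        exact h1 s
    have s2 : ∑ i, zL (a i) ((U i, 0) : ZZ A) = (-κ) • ((0, δ) : ZZ A) := by
      refine Prod.ext ?_ ?_
      · rw [Prod.fst_sum]
        show ∑ i : Fin 3, (0 : Bal A) = (-κ) • 0
        simp
      · rw [Prod.snd_sum]
        ext s
        rw [sum_apply]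
        show ∑ i, ((0 : ℂ) - bq (U i) s (a i)) = (-κ) * δ s
        rw [Finset.sum_sub_distrib, h2 s]
        simp
    rw [s1, s2, map_zero, map_smul]
    simp
  have e4 : Tendsto (fun j => η j ((0, δ) : ZZ A)) atTop (𝓝 0) := by
    have h7 : (fun j => η j ((0, δ) : ZZ A)) = fun j => κ⁻¹ * (∑ i, (ξ j (zR (a i) (U i, 0)) -
        η j (zL (a i) (U i, 0)))) := by
      funext j
      rw [e3 j, ← mul_assoc, inv_mul_cancel₀ hκ, one_mul]
    rw [h7]
    simpa using e2.const_mul κ⁻¹
  have e5 := hev e ((0, δ) : ZZ A)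
  have s3 : zR e ((0, δ) : ZZ A) = 0 := by
    refine Prod.ext (bq_ext fun s t => ?_) ?_
    · rfl
    · rfl
  have s4 : zL e ((0, δ) : ZZ A) = (0, δ) := by
    refine Prod.ext rfl ?_
    ext y
    show δ (y * e) - bq (0 : Bal A) y e = δ y
    rw [h3, bq_zero, sub_zero]
  rw [s3, s4] at e5
  have e6 : Tendsto (fun j => ξ j 0 - η j ((0, δ) : ZZ A)) atTop (𝓝 (0 - 0)) := by
    refine Tendsto.sub ?_ e4
    simp
  have e7 := tendsto_nhds_unique e5 e6
  have e8 : (((0, δ) : ZZ A)).2 e = 1 := h4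
  rw [e8] at e7
  norm_num at e7

end Neg

end Pool.Agent.H77SP
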