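import Pool.Agent.Helper526.Sch.Units
import Pool.Agent.Helper526.Sch.Classes

set_option autoImplicit false
set_option linter.unusedSectionVars false

open scoped InnerProductSpace ENNReal NNReal Topology
open Pool.Agent.Helper526.Sch Filter

namespace Pool.Agent.H77SP

universe u

variable {H : Type u} [NormedAddCommGroup H] [InnerProductSpace ℂ H] [CompleteSpace H]

/-- An upper bound for all finite orthonormal systems bounds the trace. -/
lemma trAbsPow_le_of (b : HilbertBasis ℕ ℂ H) {X : H →L[ℂ] H}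
    (hX : IsCompactOperator (star X * X)) {p : ℝ} (hp : 0 < p) {C : ℝ≥0∞}
    (h : ∀ (α : Type u) [Fintype α] (e f : α → H), Orthonormal ℂ e → Orthonormal ℂ f →
      ∑ i, ENNReal.ofReal (‖⟪f i, X (e i)⟫_ℂ‖ ^ p) ≤ C) :
    trAbsPow b p X ≤ C := by
  classical
  obtain ⟨κ, v, lam, hv⟩ := exists_eigenbasis' hX
  rw [trAbsPow_eq b v hv hp, ENNReal.tsum_eq_iSup_sum]
  refine iSup_le fun K => ?_
  have hlam : ∀ k, lam k = ‖X (v k)‖ ^ 2 := fun k => eigen_nonneg v hv k
  have hlam0 : ∀ k, 0 ≤ lam k := fun k => by rw [hlam k]; positivity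
  have h1 : ∑ k ∈ K, ENNReal.ofReal (lam k ^ (p / 2)) =
      ∑ k ∈ K.filter (fun k => lam k ≠ 0), ENNReal.ofReal (lam k ^ (p / 2)) := by
    rw [Finset.sum_filter]
    refine Finset.sum_congr rfl fun k _ => ?_
    split_ifs with h0
    · rfl
    · rw [not_not] at h0
      rw [h0, Real.zero_rpow (by positivity)]
      simp
  rw [h1, ← Finset.sum_coe_sort]
  have hpos : ∀ k : {k // k ∈ K.filter (fun k => lam k ≠ 0)}, 0 < lam k := fun k =>
    lt_of_le_of_ne (hlam0 k) (Ne.symm (Finset.mem_filter.1 k.2).2)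
  have hnpos : ∀ k : {k // k ∈ K.filter (fun k => lam k ≠ 0)}, 0 < ‖X (v k)‖ := fun k => by
    have h2 := hpos k
    rw [hlam] at h2
    by_contra h3
    have h4 : ‖X (v k)‖ = 0 := le_antisymm (not_lt.1 h3) (norm_nonneg _)
    rw [h4] at h2
    norm_num at h2
  refine le_trans (le_of_eq ?_) (h {k // k ∈ K.filter (fun k => lam k ≠ 0)}
    (fun k => v k) (fun k => ((‖X (v k)‖⁻¹ : ℝ) : ℂ) • X (v k)) ?_ ?_)
  · refine Finset.sum_congr rfl fun k _ => ?_
    congr 1
    have h5 : ‖⟪((‖X (v k)‖⁻¹ : ℝ) : ℂ) • X (v k), X (v k)⟫_ℂ‖ = ‖X (v k)‖ := by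
      rw [inner_smul_left, inner_self_eq_norm_sq_to_K, norm_mul, RCLike.norm_conj,
        Complex.norm_real, norm_inv, norm_norm, norm_pow]
      have : ‖((‖X (v k)‖ : ℝ) : ℂ)‖ = ‖X (v k)‖ := by
        rw [Complex.norm_real, norm_norm]
      rw [show ‖(RCLike.ofReal ‖X (v k)‖ : ℂ)‖ = ‖X (v k)‖ from this, sq]
      field_simp
    rw [h5, hlam, rpow_two_mul_half (norm_nonneg _)]
  · exact v.orthonormal.comp _ Subtype.val_injective
  · rw [orthonormal_iff_ite]
    intro i j
    have h6 : ⟪X (v i), X (v j)⟫_ℂ = (lam j : ℂ) * ⟪v i, v j⟫_ℂ := by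
      have : ⟪v i, (star X * X) (v j)⟫_ℂ = ⟪X (v i), X (v j)⟫_ℂ := inner_star_right X _ _
      rw [← this, hv j, inner_smul_right]
    rw [inner_smul_left, inner_smul_right, h6, orthonormal_iff_ite.1 v.orthonormal i j]
    by_cases hij : i = j
    · subst hij
      simp only [if_true, mul_one]
      rw [Complex.conj_ofReal, hlam]
      have := (hnpos i).ne'
      have h7 : ((‖X (v i)‖ : ℝ) : ℂ) ≠ 0 := by exact_mod_cast this
      push_cast
      field_simp
    · have : (i : κ) ≠ j := fun hh => hij (Subtype.ext hh)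
      simp [this, hij]

section NN

variable (b : HilbertBasis ℕ ℂ H) {p : ℝ}

lemma schattenNorm_nonneg (X : H →L[ℂ] H) : 0 ≤ schattenNorm b p X := by
  unfold schattenNorm; positivity

lemma schattenNorm_rpow (hp : 0 < p) (X : H →L[ℂ] H) :
    schattenNorm b p X ^ p = (trAbsPow b p X).toReal := by
  unfold schattenNorm
  rw [← Real.rpow_mul ENNReal.toReal_nonneg, one_div, inv_mul_cancel₀ hp.ne', Real.rpow_one]

lemma sum_le_norm (hp : 1 ≤ p) {X : H →L[ℂ] H} (hX : IsSchatten b p X) {α : Type*} [Fintype α]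
    {e f : α → H} (he : Orthonormal ℂ e) (hf : Orthonormal ℂ f) :
    ∑ i, ‖⟪f i, X (e i)⟫_ℂ‖ ^ p ≤ schattenNorm b p X ^ p := by
  rw [schattenNorm_rpow b (by linarith)]
  exact sum_le_real b (Cpt.of_compact hX.1).1 hp ENNReal.toReal_nonneg
    (by rw [ENNReal.ofReal_toReal hX.2.ne]) he hf

lemma trAbsPow_le_ofReal (hp : 0 < p) {X : H →L[ℂ] H} (hX : IsCompactOperator X) {C : ℝ}
    (h : ∀ (α : Type u) [Fintype α] (e f : α → H), Orthonormal ℂ e → Orthonormal ℂ f →
      ∑ i, ‖⟪f i, X (e i)⟫_ℂ‖ ^ p ≤ C ^ p) :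
    trAbsPow b p X ≤ ENNReal.ofReal (C ^ p) := by
  refine trAbsPow_le_of b (Cpt.of_compact hX).1 hp fun α _ e f he hf => ?_
  rw [← ENNReal.ofReal_sum_of_nonneg (fun i _ => by positivity)]
  exact ENNReal.ofReal_le_ofReal (h α e f he hf)

lemma schattenNorm_le (hp : 0 < p) {X : H →L[ℂ] H} (hX : IsCompactOperator X) {C : ℝ} (hC : 0 ≤ C)
    (h : ∀ (α : Type u) [Fintype α] (e f : α → H), Orthonormal ℂ e → Orthonormal ℂ f →
      ∑ i, ‖⟪f i, X (e i)⟫_ℂ‖ ^ p ≤ C ^ p) :
    schattenNorm b p X ≤ C := by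
  have h1 := trAbsPow_le_ofReal b hp hX h
  have h2 : (trAbsPow b p X).toReal ≤ C ^ p := ENNReal.toReal_le_of_le_ofReal (by positivity) h1
  rw [← schattenNorm_rpow b hp] at h2
  exact (Real.rpow_le_rpow_iff (schattenNorm_nonneg b X) hC hp).1 h2

lemma schattenNorm_add_le (hp : 1 ≤ p) {X Y : H →L[ℂ] H} (hX : IsSchatten b p X)
    (hY : IsSchatten b p Y) :
    schattenNorm b p (X + Y) ≤ schattenNorm b p X + schattenNorm b p Y := by
  have hp0 : 0 < p := by linarith
  refine schattenNorm_le b hp0 (hX.1.add hY.1)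
    (add_nonneg (schattenNorm_nonneg b X) (schattenNorm_nonneg b Y)) fun α _ e f he hf => ?_
  have h1 := Real.Lp_add_le_of_nonneg (p := p) Finset.univ hp
    (f := fun i => ‖⟪f i, X (e i)⟫_ℂ‖) (g := fun i => ‖⟪f i, Y (e i)⟫_ℂ‖)
    (fun _ _ => norm_nonneg _) (fun _ _ => norm_nonneg _)
  have h2 := sum_le_norm b hp hX he hf
  have h3 := sum_le_norm b hp hY he hf
  have h4 : (∑ i, ‖⟪f i, X (e i)⟫_ℂ‖ ^ p) ^ (1 / p) ≤ schattenNorm b p X := by
    rw [one_div]
    exact (Real.rpow_inv_le_iff_of_pos (Finset.sum_nonneg fun i _ => by positivity)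
      (schattenNorm_nonneg b X) hp0).2 h2
  have h5 : (∑ i, ‖⟪f i, Y (e i)⟫_ℂ‖ ^ p) ^ (1 / p) ≤ schattenNorm b p Y := by
    rw [one_div]
    exact (Real.rpow_inv_le_iff_of_pos (Finset.sum_nonneg fun i _ => by positivity)
      (schattenNorm_nonneg b Y) hp0).2 h3
  have h6 : (∑ i, (‖⟪f i, X (e i)⟫_ℂ‖ + ‖⟪f i, Y (e i)⟫_ℂ‖) ^ p) ^ (1 / p) ≤
      schattenNorm b p X + schattenNorm b p Y := by
    refine le_trans ?_ (add_le_add h4 h5)
    exact h1
  rw [one_div] at h6
  have h7 := (Real.rpow_inv_le_iff_of_pos (Finset.sum_nonneg fun i _ => by positivity)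
      (add_nonneg (schattenNorm_nonneg b X) (schattenNorm_nonneg b Y)) hp0).1 h6
  refine le_trans (Finset.sum_le_sum fun i _ => ?_) h7
  refine Real.rpow_le_rpow (norm_nonneg _) ?_ hp0.le
  rw [add_apply, inner_add_right]
  exact norm_add_le _ _

lemma single_le (hp : 1 ≤ p) {X : H →L[ℂ] H} (hX : IsSchatten b p X) {e f : H} (he : ‖e‖ = 1)
    (hf : ‖f‖ = 1) : ‖⟪f, X e⟫_ℂ‖ ≤ schattenNorm b p X := by
  have h1 := sum_le_norm b hp hX (α := Unit) (e := fun _ => e) (f := fun _ => f)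
    (by rw [orthonormal_iff_ite]; intro i j; simp [he])
    (by rw [orthonormal_iff_ite]; intro i j; simp [hf])
  simp only [Finset.univ_unique, Finset.sum_singleton] at h1
  exact (Real.rpow_le_rpow_iff (norm_nonneg _) (schattenNorm_nonneg b X) (by linarith)).1 h1

lemma opNorm_le_schattenNorm (hp : 1 ≤ p) {X : H →L[ℂ] H} (hX : IsSchatten b p X) :
    ‖X‖ ≤ schattenNorm b p X := by
  refine ContinuousLinearMap.opNorm_le_bound _ (schattenNorm_nonneg b X) fun z => ?_
  by_cases hz : z = 0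
  · simp [hz]
  by_cases hX0 : X z = 0
  · rw [hX0, norm_zero]; exact mul_nonneg (schattenNorm_nonneg b X) (norm_nonneg _)
  have hzn : 0 < ‖z‖ := norm_pos_iff.2 hz
  have hXn : 0 < ‖X z‖ := norm_pos_iff.2 hX0
  have h1 := single_le b hp hX (e := ((‖z‖⁻¹ : ℝ) : ℂ) • z) (f := ((‖X z‖⁻¹ : ℝ) : ℂ) • X z)
    (by rw [norm_smul, Complex.norm_real, norm_inv, norm_norm, inv_mul_cancel₀ hzn.ne'])
    (by rw [norm_smul, Complex.norm_real, norm_inv, norm_norm, inv_mul_cancel₀ hXn.ne'])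
  rw [map_smul, inner_smul_left, inner_smul_right, inner_self_eq_norm_sq_to_K, norm_mul, norm_mul,
    RCLike.norm_conj, Complex.norm_real, Complex.norm_real, norm_inv, norm_inv, norm_norm,
    norm_norm, norm_pow] at h1
  have h2 : ‖(RCLike.ofReal ‖X z‖ : ℂ)‖ = ‖X z‖ := by
    show ‖((‖X z‖ : ℝ) : ℂ)‖ = ‖X z‖
    rw [Complex.norm_real, norm_norm]
  rw [h2] at h1
  have h3 : ‖X z‖⁻¹ * (‖z‖⁻¹ * ‖X z‖ ^ 2) = ‖X z‖ / ‖z‖ := by field_simp
  rw [h3, div_le_iff₀ hzn] at h1
  exact h1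

/-- `tr |XY|^p ≤ ‖X‖^p tr |Y|^p`. -/
lemma trAbsPow_mul_le (hp : 0 < p) (X : H →L[ℂ] H) {Y : H →L[ℂ] H} (hY : IsCompactOperator Y) :
    trAbsPow b p (X * Y) ≤ ENNReal.ofReal (‖X‖ ^ p) * trAbsPow b p Y := by
  have hXY : IsCompactOperator (X * Y) := hY.clm_comp X
  have key : ∀ {κ : Type u} (g : HilbertBasis κ ℂ H),
      ∑' i, ENNReal.ofReal (‖(X * Y) (g i)‖ ^ p) ≤
        ENNReal.ofReal (‖X‖ ^ p) * ∑' i, ENNReal.ofReal (‖Y (g i)‖ ^ p) := by
    intro κ g
    rw [← ENNReal.tsum_mul_left]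
    refine ENNReal.tsum_le_tsum fun i => ?_
    rw [← ENNReal.ofReal_mul (by positivity), ← Real.mul_rpow (norm_nonneg _) (norm_nonneg _)]
    exact ENNReal.ofReal_le_ofReal
      (Real.rpow_le_rpow (norm_nonneg _) (X.le_opNorm _) hp.le)
  have heig : ∀ {κ : Type u} {Z : H →L[ℂ] H} (v : HilbertBasis κ ℂ H) {lam : κ → ℝ}
      (_ : ∀ k, (star Z * Z) (v k) = ((lam k : ℝ) : ℂ) • v k),
      trAbsPow b p Z = ∑' i, ENNReal.ofReal (‖Z (v i)‖ ^ p) := by
    intro κ Z v lam hv
    rw [trAbsPow_eq b v hv hp]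
    congr 1
    funext k
    rw [eigen_nonneg v hv k, rpow_two_mul_half (norm_nonneg _)]
  rcases le_total 2 p with h | h
  · obtain ⟨κ, v, lam, hv⟩ := exists_eigenbasis' (Cpt.of_compact hXY).1
    rw [heig v hv]
    refine le_trans (key v) ?_
    gcongr
    exact sum_norm_le b v (Cpt.of_compact hY).1 h
  · obtain ⟨κ, v, lam, hv⟩ := exists_eigenbasis' (Cpt.of_compact hY).1
    rw [heig v hv]
    exact le_trans (le_sum_norm b v (Cpt.of_compact hXY).1 hp h) (key v)

lemma isSchatten_mul (hp : 0 < p) (X : H →L[ℂ] H) {Y : H →L[ℂ] H} (hY : IsSchatten b p Y) :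
    IsSchatten b p (X * Y) :=
  ⟨hY.1.clm_comp X, lt_of_le_of_lt (trAbsPow_mul_le b hp X hY.1)
    (ENNReal.mul_lt_top ENNReal.ofReal_lt_top hY.2)⟩

lemma schattenNorm_mul_le (hp : 0 < p) (X : H →L[ℂ] H) {Y : H →L[ℂ] H} (hY : IsSchatten b p Y) :
    schattenNorm b p (X * Y) ≤ ‖X‖ * schattenNorm b p Y := by
  have h1 := trAbsPow_mul_le b hp X hY.1
  have h2 : (trAbsPow b p (X * Y)).toReal ≤ ‖X‖ ^ p * (trAbsPow b p Y).toReal := by
    have := ENNReal.toReal_mono (ENNReal.mul_lt_top ENNReal.ofReal_lt_top hY.2).ne h1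
    rwa [ENNReal.toReal_mul, ENNReal.toReal_ofReal (by positivity)] at this
  rw [← schattenNorm_rpow b hp, ← schattenNorm_rpow b hp,
    ← Real.mul_rpow (norm_nonneg _) (schattenNorm_nonneg b Y)] at h2
  exact (Real.rpow_le_rpow_iff (schattenNorm_nonneg b _)
    (mul_nonneg (norm_nonneg _) (schattenNorm_nonneg b Y)) hp).1 h2

end NN

/-! The Banach algebra `S_p` -/

lemma ppos (p : ℝ) [Fact (1 ≤ p)] : 0 < p := lt_of_lt_of_le one_pos (Fact.out : 1 ≤ p)

/-- The Schatten class `S_p` of the separable Hilbert space `H` (with Hilbert basis `b`): the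
compact operators `c` with `tr (c* c)^{p/2} < ∞`. -/
def SP (b : HilbertBasis ℕ ℂ H) (p : ℝ) [Fact (1 ≤ p)] : Type u := SchattenClass b p (ppos p)

section

variable {b : HilbertBasis ℕ ℂ H} {p : ℝ} [hpf : Fact (1 ≤ p)]

noncomputable instance instACG : AddCommGroup (SP b p) :=
  inferInstanceAs (AddCommGroup (SchattenClass b p (ppos p)))

noncomputable instance instMod : Module ℂ (SP b p) :=
  inferInstanceAs (Module ℂ (SchattenClass b p (ppos p)))

/-- The operator on `H` underlying an element of `S_p`. -/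
def tOp (x : SP b p) : H →L[ℂ] H := op (b := b) (p := p) (hp := ppos p) x

/-- An element of `S_p` from an operator. -/
def mk (c : H →L[ℂ] H) (hc : IsSchatten b p c) : SP b p := ⟨c, hc⟩

@[simp] lemma tOp_mk (c : H →L[ℂ] H) (hc : IsSchatten b p c) : tOp (mk c hc) = c := rfl

lemma tOp_mem (x : SP b p) : IsSchatten b p (tOp x) := x.2

lemma tOp_inj {x y : SP b p} (h : tOp x = tOp y) : x = y := Subtype.ext h

@[simp] lemma tOp_add (x y : SP b p) : tOp (x + y) = tOp x + tOp y := rfl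
@[simp] lemma tOp_sub (x y : SP b p) : tOp (x - y) = tOp x - tOp y := rfl
@[simp] lemma tOp_neg (x : SP b p) : tOp (-x) = -tOp x := rfl
@[simp] lemma tOp_zero : tOp (0 : SP b p) = 0 := rfl
@[simp] lemma tOp_smul (c : ℂ) (x : SP b p) : tOp (c • x) = c • tOp x := rfl

noncomputable instance instMul : Mul (SP b p) where
  mul x y := mk (tOp x * tOp y) (isSchatten_mul b (ppos p) _ (tOp_mem y))

@[simp] lemma tOp_mul (x y : SP b p) : tOp (x * y) = tOp x * tOp y := rfl

noncomputable instance instNorm : Norm (SP b p) where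
  norm x := schattenNorm b p (tOp x)

lemma norm_def (x : SP b p) : ‖x‖ = schattenNorm b p (tOp x) := rfl

/-- The Schatten norm as a group norm. -/
noncomputable def groupNorm : AddGroupNorm (SP b p) where
  toFun x := schattenNorm b p (tOp x)
  map_zero' := by
    show schattenNorm b p (0 : H →L[ℂ] H) = 0
    unfold schattenNorm
    rw [trAbsPow_zero b (ppos p)]
    simp [Real.zero_rpow (inv_ne_zero (ppos p).ne')]
  add_le' x y := schattenNorm_add_le b hpf.out (tOp_mem x) (tOp_mem y)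
  neg' x := by
    show schattenNorm b p (-tOp x) = schattenNorm b p (tOp x)
    unfold schattenNorm
    have h1 : -tOp x = (-1 : ℂ) • tOp x := by simp
    rw [h1, trAbsPow_smul b (Cpt.of_compact (tOp_mem x).1).1 (ppos p)]
    simp
  eq_zero_of_map_eq_zero' x hx := by
    apply tOp_inj
    have h1 := opNorm_le_schattenNorm b hpf.out (tOp_mem x)
    have h2 : schattenNorm b p (tOp x) = 0 := hx
    rw [h2] at h1
    exact norm_le_zero_iff.1 h1

noncomputable instance instNG : NormedAddCommGroup (SP b p) :=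
  { groupNorm.toNormedAddCommGroup with
    toAddCommGroup := instACG
    norm := fun x => schattenNorm b p (tOp x) }

lemma norm_def' (x : SP b p) : ‖x‖ = schattenNorm b p (tOp x) := rfl

noncomputable instance instNS : NormedSpace ℂ (SP b p) where
  norm_smul_le c x := by
    rw [norm_def', norm_def', tOp_smul]
    unfold schattenNorm
    rw [trAbsPow_smul b (Cpt.of_compact (tOp_mem x).1).1 (ppos p), ENNReal.toReal_mul,
      ENNReal.toReal_ofReal (by positivity),
      Real.mul_rpow (by positivity) ENNReal.toReal_nonneg, ← Real.rpow_mul (norm_nonneg _),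
      one_div, mul_inv_cancel₀ (ppos p).ne', Real.rpow_one]

noncomputable instance instNUR : NonUnitalRing (SP b p) :=
  { instACG with
    left_distrib := fun x y z => tOp_inj (by simp [mul_add])
    right_distrib := fun x y z => tOp_inj (by simp [add_mul])
    zero_mul := fun x => tOp_inj (by simp)
    mul_zero := fun x => tOp_inj (by simp)
    mul_assoc := fun x y z => tOp_inj (by simp [mul_assoc]) }

lemma opNorm_le (x : SP b p) : ‖tOp x‖ ≤ ‖x‖ := opNorm_le_schattenNorm b hpf.out (tOp_mem x)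

noncomputable instance instNUNR : NonUnitalNormedRing (SP b p) :=
  { instNG, instNUR with
    norm_mul_le := fun x y => by
      refine le_trans (schattenNorm_mul_le b (ppos p) (tOp x) (tOp_mem y)) ?_
      exact mul_le_mul_of_nonneg_right (opNorm_le x) (schattenNorm_nonneg b _) }

instance instIST : IsScalarTower ℂ (SP b p) (SP b p) where
  smul_assoc c x y := tOp_inj (by simp)

instance instSCC : SMulCommClass ℂ (SP b p) (SP b p) where
  smul_comm c x y := tOp_inj (by simp)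

/-- The inclusion `S_p → B(H)`. -/
noncomputable def tOpL : SP b p →L[ℂ] (H →L[ℂ] H) :=
  LinearMap.mkContinuous ⟨⟨tOp, tOp_add⟩, tOp_smul⟩ 1 (fun x => by
    rw [one_mul]; exact opNorm_le x)

@[simp] lemma tOpL_apply (x : SP b p) : tOpL x = tOp x := rfl

instance instComplete : CompleteSpace (SP b p) := by
  refine Metric.complete_of_cauchySeq_tendsto fun x hx => ?_
  have h1 : CauchySeq (fun n => tOpL (x n)) := hx.map (tOpL (b := b) (p := p)).uniformContinuous
  obtain ⟨X, hX⟩ := cauchySeq_tendsto_of_complete h1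
  have hXc : IsCompactOperator X := by
    refine isCompactOperator_of_tendsto hX (Eventually.of_forall fun n => ?_)
    exact (tOp_mem (x n)).1
  have hp0 := ppos p
  -- the difference bound
  have key : ∀ ε > 0, ∃ N, ∀ n ≥ N, trAbsPow b p (X - tOp (x n)) ≤ ENNReal.ofReal (ε ^ p) := by
    intro ε hε
    obtain ⟨N, hN⟩ := Metric.cauchySeq_iff.1 hx ε hε
    refine ⟨N, fun n hn => ?_⟩
    refine trAbsPow_le_ofReal b hp0 (hXc.sub (tOp_mem (x n)).1) fun α _ e f he hf => ?_
    have ht : Tendsto (fun m => ∑ i, ‖⟪f i, (tOp (x m) - tOp (x n)) (e i)⟫_ℂ‖ ^ p) atTop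
        (𝓝 (∑ i, ‖⟪f i, (X - tOp (x n)) (e i)⟫_ℂ‖ ^ p)) := by
      refine tendsto_finsetSum _ fun i _ => ?_
      refine Tendsto.rpow_const ?_ (Or.inr hp0.le)
      refine Tendsto.norm ?_
      refine Tendsto.inner tendsto_const_nhds ?_
      have h3 : Tendsto (fun m => tOp (x m) (e i)) atTop (𝓝 (X (e i))) :=
        ((ContinuousLinearMap.apply ℂ H (e i)).continuous.tendsto X).comp hX
      exact h3.sub_const _
    refine le_of_tendsto ht ?_
    filter_upwards [eventually_ge_atTop N] with m hm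
    have h4 := sum_le_norm b hpf.out (tOp_mem (x m - x n)) he hf
    rw [tOp_sub] at h4
    refine le_trans h4 ?_
    refine Real.rpow_le_rpow (schattenNorm_nonneg b _) ?_ hp0.le
    have h5 := hN m hm n hn
    rw [dist_eq_norm, norm_def', tOp_sub] at h5
    exact h5.le
  have hXS : IsSchatten b p X := by
    obtain ⟨N, hN⟩ := key 1 one_pos
    have h6 : IsSchatten b p (X - tOp (x N)) :=
      ⟨hXc.sub (tOp_mem (x N)).1, lt_of_le_of_lt (hN N le_rfl) ENNReal.ofReal_lt_top⟩
    have h7 := schatten_add_mem b hp0 h6 (tOp_mem (x N))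
    simpa using h7
  refine ⟨mk X hXS, ?_⟩
  rw [Metric.tendsto_atTop]
  intro ε hε
  obtain ⟨N, hN⟩ := key (ε / 2) (by positivity)
  refine ⟨N, fun n hn => ?_⟩
  rw [dist_comm, dist_eq_norm, norm_def', tOp_sub, tOp_mk]
  have h8 : (trAbsPow b p (X - tOp (x n))).toReal ≤ (ε / 2) ^ p :=
    ENNReal.toReal_le_of_le_ofReal (by positivity) (hN n hn)
  rw [← schattenNorm_rpow b hp0] at h8
  have h9 := (Real.rpow_le_rpow_iff (schattenNorm_nonneg b _) (by positivity) hp0).1 h8
  linarith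

end

end Pool.Agent.H77SP
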