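import Pool.Agent.H77SP.Alg
import Pool.Agent.H77SP.ASA

set_option autoImplicit false
set_option linter.unusedSectionVars false

open scoped InnerProductSpace ENNReal NNReal Topology
open Pool.Agent.Helper526.Sch Filter

namespace Pool.Agent.H77SP

universe u

variable {H : Type u} [NormedAddCommGroup H] [InnerProductSpace ℂ H] [CompleteSpace H]

/-! The weights `h k = 2^{-⌊log₂(k+1)⌋}` -/

/-- `h k = 2^{-⌊log₂(k+1)⌋}` -/
noncomputable def hh (k : ℕ) : ℝ := (1 / 2) ^ (Nat.log 2 (k + 1))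

lemma hh_pos (k : ℕ) : 0 < hh k := by unfold hh; positivity

lemma hh_zero : hh 0 = 1 := by simp [hh]

lemma hh_odd (k : ℕ) : hh k = 2 * hh (2 * k + 1) := by
  unfold hh
  have : Nat.log 2 (2 * k + 1 + 1) = Nat.log 2 (k + 1) + 1 := by
    rw [Nat.log_of_one_lt_of_le (by norm_num) (by omega)]
    congr 2
    omega
  rw [this, pow_succ]
  ring

lemma hh_even (k : ℕ) : hh k = 2 * hh (2 * k + 2) := by
  unfold hh
  have : Nat.log 2 (2 * k + 2 + 1) = Nat.log 2 (k + 1) + 1 := by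
    rw [Nat.log_of_one_lt_of_le (by norm_num) (by omega)]
    congr 2
    omega
  rw [this, pow_succ]
  ring

lemma hh_le (k : ℕ) : hh k ≤ 2 * ((k : ℝ) + 1)⁻¹ := by
  unfold hh
  have h1 : k + 1 < 2 ^ (Nat.log 2 (k + 1) + 1) := Nat.lt_pow_succ_log_self (by norm_num) _
  have h2 : ((k : ℝ) + 1) < 2 ^ (Nat.log 2 (k + 1) + 1) := by exact_mod_cast h1
  rw [pow_succ] at h2
  rw [one_div, inv_pow, ← div_eq_mul_inv, le_div_iff₀ (by positivity),
    inv_mul_le_iff₀ (by positivity)]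
  linarith

lemma summable_hh {s : ℝ} (hs : 1 < s) : Summable fun k => hh k ^ s := by
  have h1 : Summable fun k : ℕ => ((k : ℝ) ^ s)⁻¹ := Real.summable_nat_rpow_inv.2 hs
  have h2 : Summable fun k : ℕ => (((k + 1 : ℕ) : ℝ) ^ s)⁻¹ :=
    (summable_nat_add_iff (f := fun k : ℕ => ((k : ℝ) ^ s)⁻¹) 1).2 h1
  refine Summable.of_nonneg_of_le (fun k => Real.rpow_nonneg (hh_pos k).le _) (fun k => ?_)
    (h2.mul_left ((2 : ℝ) ^ s))
  refine le_trans (Real.rpow_le_rpow (hh_pos k).le (hh_le k) (by linarith)) ?_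
  rw [Real.mul_rpow (by norm_num) (by positivity), Real.inv_rpow (by positivity)]
  push_cast
  exact le_rfl

/-! Trace inequalities -/

lemma trAbsPow_mono (b : HilbertBasis ℕ ℂ H) {X : H →L[ℂ] H} (hX : IsCompactOperator X) {p P : ℝ}
    (hp : 0 < p) (hpP : p ≤ P) :
    trAbsPow b P X ≤ ENNReal.ofReal (‖X‖ ^ (P - p)) * trAbsPow b p X := by
  obtain ⟨κ, v, lam, hv⟩ := exists_eigenbasis' (Cpt.of_compact hX).1
  rw [trAbsPow_eq b v hv (by linarith), trAbsPow_eq b v hv hp, ← ENNReal.tsum_mul_left]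
  refine ENNReal.tsum_le_tsum fun k => ?_
  rw [← ENNReal.ofReal_mul (by positivity)]
  refine ENNReal.ofReal_le_ofReal ?_
  have hlam : 0 ≤ lam k := by rw [eigen_nonneg v hv k]; positivity
  have h1 : P / 2 = (P - p) / 2 + p / 2 := by ring
  rw [h1, Real.rpow_add_of_nonneg hlam (by linarith) (by linarith)]
  refine mul_le_mul_of_nonneg_right ?_ (Real.rpow_nonneg hlam _)
  have h2 := Real.rpow_le_rpow hlam (le_norm_sq v hv k) (show 0 ≤ (P - p) / 2 by linarith)
  rwa [rpow_two_mul_half (norm_nonneg _)] at h2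

lemma summable_of_ofReal {f : ℕ → ℝ} (hf : ∀ k, 0 ≤ f k) {C : ℝ} (hC : 0 ≤ C)
    (h : ∑' k, ENNReal.ofReal (f k) ≤ ENNReal.ofReal C) : Summable f ∧ ∑' k, f k ≤ C := by
  have h1 : Summable fun k => (ENNReal.ofReal (f k)).toReal :=
    ENNReal.summable_toReal (lt_of_le_of_lt h ENNReal.ofReal_lt_top).ne
  have h2 : Summable f := h1.congr fun k => ENNReal.toReal_ofReal (hf k)
  refine ⟨h2, ?_⟩
  rw [← ENNReal.ofReal_tsum_of_nonneg hf h2] at h
  exact (ENNReal.ofReal_le_ofReal_iff hC).1 h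

section

variable {b : HilbertBasis ℕ ℂ H} {p : ℝ} [hpf : Fact (1 ≤ p)]

lemma pow_sum_aux {P : ℝ} (x : SP b p) :
    ENNReal.ofReal (‖tOp x‖ ^ (P - p)) * trAbsPow b p (tOp x) =
      ENNReal.ofReal (‖tOp x‖ ^ (P - p) * ‖x‖ ^ p) := by
  rw [ENNReal.ofReal_mul (by positivity), norm_def', schattenNorm_rpow b (ppos p),
    ENNReal.ofReal_toReal (tOp_mem x).2.ne]

lemma pow_sum {P : ℝ} (hP : 2 ≤ P) (hpP : p ≤ P) (x : SP b p) :
    Summable (fun k => ‖tOp x (b k)‖ ^ P) ∧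
      ∑' k, ‖tOp x (b k)‖ ^ P ≤ ‖tOp x‖ ^ (P - p) * ‖x‖ ^ p := by
  refine summable_of_ofReal (fun k => by positivity) (by positivity) ?_
  rw [← pow_sum_aux]
  exact le_trans (sum_norm_le b b (Cpt.of_compact (tOp_mem x).1).1 hP)
    (trAbsPow_mono b (tOp_mem x).1 (ppos p) hpP)

lemma pow_sum_star {P : ℝ} (hP : 2 ≤ P) (hpP : p ≤ P) (x : SP b p) :
    Summable (fun k => ‖star (tOp x) (b k)‖ ^ P) ∧
      ∑' k, ‖star (tOp x) (b k)‖ ^ P ≤ ‖tOp x‖ ^ (P - p) * ‖x‖ ^ p := by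
  refine summable_of_ofReal (fun k => by positivity) (by positivity) ?_
  rw [← pow_sum_aux]
  have h1 : Cpt (star (tOp x)) := (Cpt.of_compact (tOp_mem x).1).star
  refine le_trans (sum_norm_le b b h1.1 hP) ?_
  rw [trAbsPow_star b (Cpt.of_compact (tOp_mem x).1) (by linarith)]
  exact trAbsPow_mono b (tOp_mem x).1 (ppos p) hpP

/-! The bilinear forms -/

/-- the `k`-th term of the form -/
noncomputable def term (β : ℕ → ℝ) (σ : ℕ → ℕ) (x y : SP b p) (k : ℕ) : ℂ :=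
  (β k : ℂ) * ⟪b (σ k), tOp x (tOp y (b k))⟫_ℂ

lemma young_aux {P r a A B : ℝ} (hP : 2 < P) (hr : r = P / (P - 2)) (ha : 0 ≤ a) (hA : 0 ≤ A)
    (hB : 0 ≤ B) : a * (A * B) ≤ a ^ r + (A ^ P + B ^ P) / 2 := by
  have hP2 : 0 < P - 2 := by linarith
  have hconj : r.HolderConjugate (P / 2) := by
    rw [Real.holderConjugate_iff]
    constructor
    · rw [hr, lt_div_iff₀ hP2]
      linarith
    · rw [hr]
      field_simp
      ring
  have h1 := Real.young_inequality_of_nonneg ha (mul_nonneg hA hB) hconj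
  have hr1 : 1 ≤ r := hconj.lt.le
  have h2 : a ^ r / r ≤ a ^ r := div_le_self (Real.rpow_nonneg ha _) hr1
  have h3 : (A * B) ^ (P / 2) / (P / 2) ≤ (A * B) ^ (P / 2) :=
    div_le_self (Real.rpow_nonneg (mul_nonneg hA hB) _) (by linarith)
  have h4 : (A * B) ^ (P / 2) ≤ (A ^ P + B ^ P) / 2 := by
    rw [Real.mul_rpow hA hB]
    have e1 : A ^ P = (A ^ (P / 2)) ^ 2 := by
      rw [← Real.rpow_natCast, ← Real.rpow_mul hA]
      congr 1
      push_cast
      ring
    have e2 : B ^ P = (B ^ (P / 2)) ^ 2 := by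
      rw [← Real.rpow_natCast, ← Real.rpow_mul hB]
      congr 1
      push_cast
      ring
    rw [e1, e2]
    nlinarith [sq_nonneg (A ^ (P / 2) - B ^ (P / 2))]
  linarith

lemma term_le {P r : ℝ} (hP : 2 < P) (hr : r = P / (P - 2)) {β : ℕ → ℝ} (hβ : ∀ k, 0 ≤ β k)
    (σ : ℕ → ℕ) (x y : SP b p) (k : ℕ) :
    ‖term β σ x y k‖ ≤ β k ^ r + (‖star (tOp x) (b (σ k))‖ ^ P + ‖tOp y (b k)‖ ^ P) / 2 := by
  unfold term
  rw [norm_mul, Complex.norm_real, Real.norm_of_nonneg (hβ k), ← inner_star_left]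
  refine le_trans (mul_le_mul_of_nonneg_left (norm_inner_le_norm _ _) (hβ k)) ?_
  exact young_aux hP hr (hβ k) (norm_nonneg _) (norm_nonneg _)

lemma term_summable {P r : ℝ} (hP : 2 < P) (hpP : p ≤ P) (hr : r = P / (P - 2)) {β : ℕ → ℝ}
    (hβ : ∀ k, 0 ≤ β k) (hs : Summable fun k => β k ^ r) {σ : ℕ → ℕ} (hσ : Function.Injective σ)
    (x y : SP b p) : Summable (term β σ x y) := by
  have h1 := (pow_sum_star hP.le hpP x).1.comp_injective hσ
  have h2 := (pow_sum hP.le hpP y).1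
  refine Summable.of_norm_bounded (hs.add ((h1.add h2).div_const 2)) fun k => ?_
  exact term_le hP hr hβ σ x y k

lemma term_bound {P r : ℝ} (hP : 2 < P) (hpP : p ≤ P) (hr : r = P / (P - 2)) {β : ℕ → ℝ}
    (hβ : ∀ k, 0 ≤ β k) (hs : Summable fun k => β k ^ r) {σ : ℕ → ℕ} (hσ : Function.Injective σ)
    (x y : SP b p) (hx : ‖x‖ ≤ 1) (hy : ‖y‖ ≤ 1) :
    ‖∑' k, term β σ x y k‖ ≤ (∑' k, β k ^ r) + 1 := by
  have h1 := (pow_sum_star hP.le hpP x).1.comp_injective hσ
  have h2 := (pow_sum hP.le hpP y).1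
  have hone : ∀ z : SP b p, ‖z‖ ≤ 1 → ‖tOp z‖ ^ (P - p) * ‖z‖ ^ p ≤ 1 := by
    intro z hz
    have e1 : ‖tOp z‖ ^ (P - p) ≤ 1 :=
      Real.rpow_le_one (norm_nonneg _) (le_trans (opNorm_le z) hz) (by linarith)
    have e2 : ‖z‖ ^ p ≤ 1 := Real.rpow_le_one (norm_nonneg _) hz (ppos p).le
    calc ‖tOp z‖ ^ (P - p) * ‖z‖ ^ p ≤ 1 * 1 :=
          mul_le_mul e1 e2 (Real.rpow_nonneg (norm_nonneg _) _) zero_le_one
      _ = 1 := one_mul 1
  have h3 : ∑' k, ‖star (tOp x) (b (σ k))‖ ^ P ≤ 1 := by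
    have := tsum_comp_le_tsum_of_inj (pow_sum_star hP.le hpP x).1
      (fun k => by positivity) hσ
    exact le_trans this (le_trans (pow_sum_star hP.le hpP x).2 (hone x hx))
  have h4 : ∑' k, ‖tOp y (b k)‖ ^ P ≤ 1 := le_trans (pow_sum hP.le hpP y).2 (hone y hy)
  have h5 := tsum_of_norm_bounded (hs.add ((h1.add h2).div_const 2)).hasSum
    (fun k => term_le hP hr hβ σ x y k)
  refine le_trans h5 ?_
  rw [hs.tsum_add ((h1.add h2).div_const 2), tsum_div_const, h1.tsum_add h2]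
  have h3' : ∑' k, ((fun k => ‖star (tOp x) (b k)‖ ^ P) ∘ σ) k ≤ 1 := h3
  linarith

/-- The form `U(x,y) = ∑ β_k ⟨b_{σ k}, x y b_k⟩`. -/
noncomputable def form {P r : ℝ} (hP : 2 < P) (hpP : p ≤ P) (hr : r = P / (P - 2)) {β : ℕ → ℝ}
    (hβ : ∀ k, 0 ≤ β k) (hs : Summable fun k => β k ^ r) {σ : ℕ → ℕ} (hσ : Function.Injective σ) :
    SP b p →L[ℂ] SP b p →L[ℂ] ℂ :=
  LinearMap.mkContinuous₂
    (LinearMap.mk₂ ℂ (fun (x y : SP b p) => ∑' k, term β σ x y k)
      (by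
        intro x x' y
        rw [← (term_summable hP hpP hr hβ hs hσ x y).tsum_add
          (term_summable hP hpP hr hβ hs hσ x' y)]
        congr 1
        funext k
        unfold term
        rw [tOp_add, add_apply, inner_add_right, mul_add])
      (by
        intro c x y
        rw [smul_eq_mul, ← tsum_mul_left]
        congr 1
        funext k
        unfold term
        rw [tOp_smul, smul_apply, inner_smul_right]
        ring)
      (by
        intro x y y'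
        rw [← (term_summable hP hpP hr hβ hs hσ x y).tsum_add
          (term_summable hP hpP hr hβ hs hσ x y')]
        congr 1
        funext k
        unfold term
        rw [tOp_add, add_apply, map_add, inner_add_right, mul_add])
      (by
        intro c x y
        rw [smul_eq_mul, ← tsum_mul_left]
        congr 1
        funext k
        unfold term
        rw [tOp_smul, smul_apply, map_smul, inner_smul_right]
        ring))
    ((∑' k, β k ^ r) + 1)
    (by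
      intro x y
      set F := LinearMap.mk₂ ℂ (fun (x y : SP b p) => ∑' k, term β σ x y k) _ _ _ _ with hF
      by_cases hx : x = 0
      · rw [hx]; simp
      by_cases hy : y = 0
      · rw [hy]; simp
      have hxn : 0 < ‖x‖ := norm_pos_iff.2 hx
      have hyn : 0 < ‖y‖ := norm_pos_iff.2 hy
      have h1 : ‖F (((‖x‖⁻¹ : ℝ) : ℂ) • x) (((‖y‖⁻¹ : ℝ) : ℂ) • y)‖ ≤ (∑' k, β k ^ r) + 1 := by
        refine term_bound hP hpP hr hβ hs hσ _ _ ?_ ?_
        · rw [norm_smul, Complex.norm_real, norm_inv, norm_norm, inv_mul_cancel₀ hxn.ne']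
        · rw [norm_smul, Complex.norm_real, norm_inv, norm_norm, inv_mul_cancel₀ hyn.ne']
      rw [map_smul, LinearMap.map_smul₂, norm_smul, norm_smul, Complex.norm_real,
        Complex.norm_real, norm_inv, norm_inv, norm_norm, norm_norm] at h1
      have h2 : ‖F x y‖ = ‖x‖ * ‖y‖ * (‖y‖⁻¹ * (‖x‖⁻¹ * ‖F x y‖)) := by
        field_simp
      have h3 : ‖y‖⁻¹ * (‖x‖⁻¹ * ‖F x y‖) ≤ (∑' k, β k ^ r) + 1 := h1
      rw [h2]
      calc ‖x‖ * ‖y‖ * (‖y‖⁻¹ * (‖x‖⁻¹ * ‖F x y‖)) ≤ ‖x‖ * ‖y‖ * ((∑' k, β k ^ r) + 1) :=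
            mul_le_mul_of_nonneg_left h3 (by positivity)
        _ = _ := by ring)

lemma form_apply {P r : ℝ} (hP : 2 < P) (hpP : p ≤ P) (hr : r = P / (P - 2)) {β : ℕ → ℝ}
    (hβ : ∀ k, 0 ≤ β k) (hs : Summable fun k => β k ^ r) {σ : ℕ → ℕ} (hσ : Function.Injective σ)
    (x y : SP b p) : form (b := b) hP hpP hr hβ hs hσ x y = ∑' k, term β σ x y k := rfl

/-! The weighted shifts -/

variable (b p) in
/-- The matrix unit in `S_p`. -/
noncomputable def mu (i j : ℕ) : SP b p :=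
  mk (matUnit b i j) ⟨matUnit_compact b i j, by rw [trAbsPow_matUnit b i j (ppos p)]; simp⟩

lemma mu_apply (i j : ℕ) (z : H) : tOp (mu b p i j) z = ⟪b j, z⟫_ℂ • b i := matUnit_apply b i j z

lemma sum_apply' (d : ℕ → ℝ) (σ : ℕ → ℕ) (t : Finset ℕ) (z : H) :
    tOp (∑ k ∈ t, (d k : ℂ) • mu b p (σ k) k) z =
      ∑ k ∈ t, ((d k : ℂ) * ⟪b k, z⟫_ℂ) • b (σ k) := by
  classical
  induction t using Finset.induction_on with
  | empty => simp
  | insert i t hi ih =>
    rw [Finset.sum_insert hi, Finset.sum_insert hi, tOp_add, add_apply, ih, tOp_smul, smul_apply,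
      mu_apply, smul_smul]

lemma norm_shift_sum (d : ℕ → ℝ) (hd : ∀ k, 0 ≤ d k) {σ : ℕ → ℕ} (hσ : Function.Injective σ)
    (t : Finset ℕ) :
    ‖∑ k ∈ t, (d k : ℂ) • mu b p (σ k) k‖ ^ p = ∑ k ∈ t, d k ^ p := by
  classical
  set T := tOp (∑ k ∈ t, (d k : ℂ) • mu b p (σ k) k) with hT
  have hTb : ∀ m, T (b m) = (((if m ∈ t then d m else 0 : ℝ)) : ℂ) • b (σ m) := by
    intro m
    rw [hT, sum_apply']
    have : ∀ k ∈ t, ((d k : ℂ) * ⟪b k, b m⟫_ℂ) • b (σ k) =
        if k = m then (d m : ℂ) • b (σ m) else 0 := by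
      intro k _
      rw [orthonormal_iff_ite.1 b.orthonormal k m]
      split_ifs with h
      · subst h; simp
      · simp
    rw [Finset.sum_congr rfl this, Finset.sum_ite_eq']
    split_ifs <;> simp
  have hstar : ∀ m, (star T * T) (b m) =
      ((((if m ∈ t then d m else 0 : ℝ)) ^ 2 : ℝ) : ℂ) • b m := by
    intro m
    apply b.repr.injective
    ext l
    rw [HilbertBasis.repr_apply_apply, HilbertBasis.repr_apply_apply]
    have h1 : ⟪b l, (star T * T) (b m)⟫_ℂ = ⟪T (b l), T (b m)⟫_ℂ := inner_star_right T _ _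
    rw [h1, hTb, hTb, inner_smul_left, inner_smul_right, inner_smul_right,
      orthonormal_iff_ite.1 b.orthonormal (σ l) (σ m), orthonormal_iff_ite.1 b.orthonormal l m,
      Complex.conj_ofReal]
    by_cases hlm : l = m
    · subst hlm
      simp only [if_true]
      push_cast
      ring
    · have : σ l ≠ σ m := fun h => hlm (hσ h)
      simp [hlm, this]
  have h2 := trAbsPow_eq b b hstar (ppos p)
  have h3 : trAbsPow b p T = ENNReal.ofReal (∑ k ∈ t, d k ^ p) := by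
    rw [h2, ENNReal.ofReal_sum_of_nonneg (fun k _ => Real.rpow_nonneg (hd k) _)]
    rw [tsum_eq_sum (s := t)]
    · refine Finset.sum_congr rfl fun k hk => ?_
      rw [if_pos hk, rpow_two_mul_half (hd k)]
    · intro k hk
      rw [if_neg hk]
      have := ppos p
      rw [zero_pow (by norm_num), Real.zero_rpow (by positivity), ENNReal.ofReal_zero]
  rw [norm_def', schattenNorm_rpow b (ppos p)]
  show (trAbsPow b p T).toReal = _
  rw [h3, ENNReal.toReal_ofReal (Finset.sum_nonneg fun k _ => Real.rpow_nonneg (hd k) _)]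

lemma shift_summable {d : ℕ → ℝ} (hd : ∀ k, 0 ≤ d k) (hs : Summable fun k => d k ^ p) {σ : ℕ → ℕ}
    (hσ : Function.Injective σ) : Summable fun k => (d k : ℂ) • mu b p (σ k) k := by
  rw [summable_iff_vanishing_norm]
  intro ε hε
  obtain ⟨s, hs'⟩ := (summable_iff_vanishing_norm.1 hs) (ε ^ p) (Real.rpow_pos_of_pos hε p)
  refine ⟨s, fun t ht => ?_⟩
  have h1 := hs' t ht
  rw [Real.norm_of_nonneg (Finset.sum_nonneg fun k _ => Real.rpow_nonneg (hd k) _),
    ← norm_shift_sum (b := b) d hd hσ t] at h1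
  exact (Real.rpow_lt_rpow_iff (norm_nonneg _) hε.le (ppos p)).1 h1

variable (b p) in
/-- The weighted shift `b_k ↦ d_k b_{σ k}` in `S_p`. -/
noncomputable def shift (d : ℕ → ℝ) (σ : ℕ → ℕ) : SP b p := ∑' k, (d k : ℂ) • mu b p (σ k) k

lemma shift_hasSum {d : ℕ → ℝ} (hd : ∀ k, 0 ≤ d k) (hs : Summable fun k => d k ^ p) {σ : ℕ → ℕ}
    (hσ : Function.Injective σ) (z : H) :
    HasSum (fun k => ((d k : ℂ) * ⟪b k, z⟫_ℂ) • b (σ k)) (tOp (shift b p d σ) z) := by
  have h1 := (((shift_summable (b := b) hd hs hσ).hasSum).mapL (tOpL (b := b) (p := p))).mapL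
    (ContinuousLinearMap.apply ℂ H z)
  have h2 : HasSum (fun k => tOp ((d k : ℂ) • mu b p (σ k) k) z) (tOp (shift b p d σ) z) := h1
  simpa only [tOp_smul, smul_apply, mu_apply, smul_smul] using h2

lemma shift_basis {d : ℕ → ℝ} (hd : ∀ k, 0 ≤ d k) (hs : Summable fun k => d k ^ p) {σ : ℕ → ℕ}
    (hσ : Function.Injective σ) (m : ℕ) :
    tOp (shift b p d σ) (b m) = (d m : ℂ) • b (σ m) := by
  classical
  have h1 := shift_hasSum (b := b) hd hs hσ (b m)
  have h2 := hasSum_single (f := fun k => ((d k : ℂ) * ⟪b k, b m⟫_ℂ) • b (σ k)) m (by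
    intro k hk
    rw [orthonormal_iff_ite.1 b.orthonormal k m, if_neg hk]
    simp)
  have h3 := h1.unique h2
  rw [h3, orthonormal_iff_ite.1 b.orthonormal m m, if_pos rfl, mul_one]

lemma shift_inner {d : ℕ → ℝ} (hd : ∀ k, 0 ≤ d k) (hs : Summable fun k => d k ^ p) {σ : ℕ → ℕ}
    (hσ : Function.Injective σ) (m : ℕ) (z : H) :
    ⟪b (σ m), tOp (shift b p d σ) z⟫_ℂ = (d m : ℂ) * ⟪b m, z⟫_ℂ := by
  classical
  have h1 := (shift_hasSum (b := b) hd hs hσ z).mapL (innerSL ℂ (b (σ m)))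
  have h1' : HasSum (fun k => ⟪b (σ m), ((d k : ℂ) * ⟪b k, z⟫_ℂ) • b (σ k)⟫_ℂ)
      ⟪b (σ m), tOp (shift b p d σ) z⟫_ℂ := h1
  have h2 := hasSum_single (f := fun k => ⟪b (σ m), ((d k : ℂ) * ⟪b k, z⟫_ℂ) • b (σ k)⟫_ℂ) m (by
    intro k hk
    rw [inner_smul_right, orthonormal_iff_ite.1 b.orthonormal (σ m) (σ k),
      if_neg (fun h => hk (hσ h).symm), mul_zero])
  have h3 := h1'.unique h2
  rw [h3, inner_smul_right, orthonormal_iff_ite.1 b.orthonormal (σ m) (σ m), if_pos rfl, mul_one]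

lemma form_shift_left {P r : ℝ} (hP : 2 < P) (hpP : p ≤ P) (hr : r = P / (P - 2)) {β : ℕ → ℝ}
    (hβ : ∀ k, 0 ≤ β k) (hs : Summable fun k => β k ^ r) {σ : ℕ → ℕ} (hσ : Function.Injective σ)
    {d : ℕ → ℝ} (hd : ∀ k, 0 ≤ d k) (hds : Summable fun k => d k ^ p) (c : SP b p) :
    form (b := b) hP hpP hr hβ hs hσ (shift b p d σ) c =
      ∑' k, ((β k * d k : ℝ) : ℂ) * ⟪b k, tOp c (b k)⟫_ℂ := by
  rw [form_apply]
  congr 1
  funext k
  unfold term
  rw [shift_inner hd hds hσ]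
  push_cast
  ring

lemma term_shift_right {β : ℕ → ℝ} {σ : ℕ → ℕ} (hσ : Function.Injective σ)
    {d : ℕ → ℝ} (hd : ∀ k, 0 ≤ d k) (hds : Summable fun k => d k ^ p) (c : SP b p) (k : ℕ) :
    term β σ c (shift b p d σ) k =
      ((β k * d k : ℝ) : ℂ) * ⟪b (σ k), tOp c (b (σ k))⟫_ℂ := by
  unfold term
  rw [shift_basis hd hds hσ, map_smul, inner_smul_right]
  push_cast
  ring

/-- the functional `c ↦ ⟨b_0, c b_0⟩` -/
noncomputable def dlt : SP b p →L[ℂ] ℂ :=
  (innerSL ℂ (b 0)).comp ((ContinuousLinearMap.apply ℂ H (b 0)).comp (tOpL (b := b) (p := p)))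

lemma dlt_apply (c : SP b p) : dlt c = ⟪b 0, tOp c (b 0)⟫_ℂ := rfl

/-- For `p > 1` the Banach algebra `S_p` is not approximately semi-amenable. -/
theorem not_asa_of_gt (hp1 : 1 < p) : ¬ ApproxSemiAmenable.{u, u} (SP b p) := by
  classical
  -- the exponents
  set P : ℝ := p + max p 2 / 2 with hPdef
  have hm1 : p ≤ max p 2 := le_max_left _ _
  have hm2 : 2 ≤ max p 2 := le_max_right _ _
  have hm3 : max p 2 < 2 * p := max_lt (by linarith) (by linarith)
  have hP2 : 2 < P := by rw [hPdef]; linarith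
  have hpP : p ≤ P := by rw [hPdef]; linarith
  have hP2p : P < 2 * p := by rw [hPdef]; linarith
  obtain ⟨r, hr⟩ : ∃ r, r = P / (P - 2) := ⟨_, rfl⟩
  clear_value P
  have hp0 : 0 < p := ppos p
  have hPpos : 0 < P := by linarith
  obtain ⟨α, hα1, hα2⟩ : ∃ α : ℝ, 1 / p < α ∧ α < 2 / P := by
    apply exists_between
    rw [div_lt_div_iff₀ hp0 hPpos]
    linarith
  have hαp : 1 < α * p := by rwa [div_lt_iff₀ hp0] at hα1
  have hαP : α * P < 2 := by rwa [lt_div_iff₀ hPpos] at hα2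
  have hr1 : 1 < (1 - α) * r := by
    have : 0 < P - 2 := by linarith
    rw [hr, ← mul_div_assoc, lt_div_iff₀ this]
    nlinarith
  -- the weights
  set d : ℕ → ℝ := fun k => hh k ^ α with hd
  set β : ℕ → ℝ := fun k => hh k ^ (1 - α) with hβ
  have hd0 : ∀ k, 0 ≤ d k := fun k => Real.rpow_nonneg (hh_pos k).le _
  have hβ0 : ∀ k, 0 ≤ β k := fun k => Real.rpow_nonneg (hh_pos k).le _
  have hds : Summable fun k => d k ^ p := by
    refine (summable_hh hαp).congr fun k => ?_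
    rw [hd]
    exact Real.rpow_mul (hh_pos k).le _ _
  have hβs : Summable fun k => β k ^ r := by
    refine (summable_hh hr1).congr fun k => ?_
    rw [hβ]
    exact Real.rpow_mul (hh_pos k).le _ _
  have hβd : ∀ k, β k * d k = hh k := by
    intro k
    show hh k ^ (1 - α) * hh k ^ α = hh k
    rw [← Real.rpow_add (hh_pos k), sub_add_cancel, Real.rpow_one]
  have hσ1 : Function.Injective (fun k : ℕ => 2 * k + 1) := fun i j h => by
    have : 2 * i + 1 = 2 * j + 1 := h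
    omega
  have hσ2 : Function.Injective (fun k : ℕ => 2 * k + 2) := fun i j h => by
    have : 2 * i + 2 = 2 * j + 2 := h
    omega
  have hσ3 : Function.Injective (fun k : ℕ => k) := fun i j h => h
  clear_value d β
  have hbal : ∀ {σ : ℕ → ℕ} (hσ : Function.Injective σ) (x y z : SP b p),
      form (b := b) hP2 hpP hr hβ0 hβs hσ (x * y) z =
        form (b := b) hP2 hpP hr hβ0 hβs hσ x (y * z) := fun hσ x y z => rfl
  have hG : ∀ c : SP b p, Summable fun n => ((hh n : ℝ) : ℂ) * ⟪b n, tOp c (b n)⟫_ℂ := by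
    intro c
    refine (term_summable hP2 hpP hr hβ0 hβs hσ3 c (shift b p d (fun k => k))).congr fun k => ?_
    rw [term_shift_right hσ3 hd0 hds, hβd]
  refine not_asa ![shift b p d (fun k => 2 * k + 1), shift b p d (fun k => 2 * k + 2),
    shift b p d (fun k => k)] (mu b p 0 0)
    ![mkBal (form (b := b) hP2 hpP hr hβ0 hβs hσ1) (hbal hσ1),
      mkBal (form (b := b) hP2 hpP hr hβ0 hβs hσ2) (hbal hσ2),
      (-2 : ℂ) • mkBal (form (b := b) hP2 hpP hr hβ0 hβs hσ3) (hbal hσ3)] dlt (-2) (by norm_num)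
    ?_ ?_ ?_ ?_
  · intro c
    rw [Fin.sum_univ_three]
    show form (b := b) hP2 hpP hr hβ0 hβs hσ1 (shift b p d (fun k => 2 * k + 1)) c +
      form (b := b) hP2 hpP hr hβ0 hβs hσ2 (shift b p d (fun k => 2 * k + 2)) c +
      (-2 : ℂ) * form (b := b) hP2 hpP hr hβ0 hβs hσ3 (shift b p d (fun k => k)) c = 0
    rw [form_shift_left hP2 hpP hr hβ0 hβs hσ1 hd0 hds,
      form_shift_left hP2 hpP hr hβ0 hβs hσ2 hd0 hds,
      form_shift_left hP2 hpP hr hβ0 hβs hσ3 hd0 hds]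
    ring
  · intro c
    rw [Fin.sum_univ_three]
    show form (b := b) hP2 hpP hr hβ0 hβs hσ1 c (shift b p d (fun k => 2 * k + 1)) +
      form (b := b) hP2 hpP hr hβ0 hβs hσ2 c (shift b p d (fun k => 2 * k + 2)) +
      (-2 : ℂ) * form (b := b) hP2 hpP hr hβ0 hβs hσ3 c (shift b p d (fun k => k)) = _
    rw [form_apply, form_apply, form_apply]
    simp only [term_shift_right hσ1 hd0 hds, term_shift_right hσ2 hd0 hds,
      term_shift_right hσ3 hd0 hds, hβd]
    set G : ℕ → ℂ := fun n => ((hh n : ℝ) : ℂ) * ⟪b n, tOp c (b n)⟫_ℂ with hGdef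
    have hGs : Summable G := hG c
    have e1 : ∀ k, ((hh k : ℝ) : ℂ) * ⟪b (2 * k + 1), tOp c (b (2 * k + 1))⟫_ℂ =
        2 * G (2 * k + 1) := by
      intro k
      rw [hGdef, hh_odd k]
      push_cast
      ring
    have e2 : ∀ k, ((hh k : ℝ) : ℂ) * ⟪b (2 * k + 2), tOp c (b (2 * k + 2))⟫_ℂ =
        2 * G (2 * k + 2) := by
      intro k
      rw [hGdef, hh_even k]
      push_cast
      ring
    simp only [e1, e2]
    rw [tsum_mul_left, tsum_mul_left]
    have h1 : Summable fun n => G (n + 1) := (summable_nat_add_iff 1).2 hGs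
    have h2 : Summable fun k => G (2 * k + 1) := hGs.comp_injective hσ1
    have h3 : Summable fun k => G (2 * k + 2) := hGs.comp_injective hσ2
    have h4 := tsum_even_add_odd (f := fun n => G (n + 1)) h2 h3
    have h5 := hGs.tsum_eq_zero_add
    have h6 : G 0 = ⟪b 0, tOp c (b 0)⟫_ℂ := by
      rw [hGdef]
      simp [hh_zero]
    have h7 : (∑' k, G (2 * k + 1)) + ∑' k, G (2 * k + 2) = ∑' n, G (n + 1) := h4
    rw [dlt_apply, ← h6]
    show 2 * (∑' k, G (2 * k + 1)) + 2 * (∑' k, G (2 * k + 2)) + -2 * (∑' k, G k) = -2 * G 0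
    rw [h5, ← h7]
    ring
  · intro y
    rw [dlt_apply, dlt_apply]
    show ⟪b 0, tOp y (tOp (mu b p 0 0) (b 0))⟫_ℂ = _
    rw [mu_apply, inner_self_eq_norm_sq_to_K, b.orthonormal.1 0]
    simp
  · rw [dlt_apply, mu_apply, inner_self_eq_norm_sq_to_K, b.orthonormal.1 0]
    simp [b.orthonormal.1 0]

end

end Pool.Agent.H77SP
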