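import Pool.Agent.H77SP.Alg
import Pool.Agent.H77SP.ASA

set_option autoImplicit false
set_option linter.unusedSectionVars false

open scoped InnerProductSpace ENNReal NNReal Topology
open Pool.Agent.Helper526.Sch Filter

namespace Pool.Agent.H77SP

universe u v

variable {H : Type u} [NormedAddCommGroup H] [InnerProductSpace ℂ H] [CompleteSpace H]

/-- The rank one operator `z ↦ ⟪y, z⟫ x`. -/
noncomputable def ro (x y : H) : H →L[ℂ] H := (innerSL ℂ y).smulRight x

lemma ro_apply (x y z : H) : ro x y z = ⟪y, z⟫_ℂ • x := by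
  simp [ro]

lemma ro_compact (x y : H) : IsCompactOperator (ro x y) := by
  have h1 : IsCompactOperator (innerSL ℂ y) :=
    isCompactOperator_of_locallyCompactSpace_dom (innerSL ℂ y)
  have h2 := h1.clm_comp (ContinuousLinearMap.toSpanSingleton ℂ x)
  have h3 : (ro x y : H → H) =
      (ContinuousLinearMap.toSpanSingleton ℂ x) ∘ (innerSL ℂ y) := by
    funext z
    rw [ro_apply]
    simp
  rw [h3]
  exact h2

section One

variable {b : HilbertBasis ℕ ℂ H}

lemma sch_ro_aux (x y : H) (α : Type u) [Fintype α] (e f : α → H) (he : Orthonormal ℂ e)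
    (hf : Orthonormal ℂ f) :
    ∑ i, ‖⟪f i, ro x y (e i)⟫_ℂ‖ ^ (1 : ℝ) ≤ (‖x‖ * ‖y‖) ^ (1 : ℝ) := by
  simp only [Real.rpow_one]
  have h1 : ∀ i, ‖⟪f i, ro x y (e i)⟫_ℂ‖ = ‖⟪f i, x⟫_ℂ‖ * ‖⟪e i, y⟫_ℂ‖ := by
    intro i
    rw [ro_apply, inner_smul_right, norm_mul, ← inner_conj_symm y (e i), RCLike.norm_conj,
      mul_comm]
  simp only [h1]
  refine le_trans (Real.sum_mul_le_sqrt_mul_sqrt Finset.univ _ _) ?_
  refine mul_le_mul ?_ ?_ (Real.sqrt_nonneg _) (norm_nonneg _)
  · rw [Real.sqrt_le_left (norm_nonneg _)]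
    exact hf.sum_inner_products_le x
  · rw [Real.sqrt_le_left (norm_nonneg _)]
    exact he.sum_inner_products_le y

variable (b) in
lemma sch_ro (x y : H) : IsSchatten b 1 (ro x y) :=
  ⟨ro_compact x y, lt_of_le_of_lt
    (trAbsPow_le_ofReal b one_pos (ro_compact x y) (sch_ro_aux x y)) ENNReal.ofReal_lt_top⟩

variable [Fact ((1 : ℝ) ≤ 1)]

variable (b) in
/-- The rank one operator as an element of `S_1`. -/
noncomputable def rk (x y : H) : SP b 1 := mk (ro x y) (sch_ro b x y)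

lemma norm_rk (x y : H) : ‖rk b x y‖ ≤ ‖x‖ * ‖y‖ :=
  schattenNorm_le b one_pos (ro_compact x y) (by positivity) (sch_ro_aux x y)

@[simp] lemma tOp_rk (x y z : H) : tOp (rk b x y) z = ⟪y, z⟫_ℂ • x := ro_apply x y z

lemma sp_ext {x y : SP b 1} (h : ∀ z, tOp x z = tOp y z) : x = y :=
  tOp_inj (ContinuousLinearMap.ext h)

lemma mul_rk (a : SP b 1) (x y : H) : a * rk b x y = rk b (tOp a x) y := by
  apply sp_ext
  intro z
  show tOp a (tOp (rk b x y) z) = _
  rw [tOp_rk, tOp_rk, map_smul]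

lemma rk_add_left (x x' y : H) : rk b (x + x') y = rk b x y + rk b x' y := by
  apply sp_ext
  intro z
  show tOp (rk b (x + x') y) z = tOp (rk b x y) z + tOp (rk b x' y) z
  rw [tOp_rk, tOp_rk, tOp_rk, smul_add]

lemma rk_smul_left (c : ℂ) (x y : H) : rk b (c • x) y = c • rk b x y := by
  apply sp_ext
  intro z
  show tOp (rk b (c • x) y) z = c • tOp (rk b x y) z
  rw [tOp_rk, tOp_rk, smul_comm]

lemma rk_add_right (x y y' : H) : rk b x (y + y') = rk b x y + rk b x y' := by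
  apply sp_ext
  intro z
  show tOp (rk b x (y + y')) z = tOp (rk b x y) z + tOp (rk b x y') z
  rw [tOp_rk, tOp_rk, tOp_rk, inner_add_left, add_smul]

lemma rk_smul_right (c : ℂ) (x y : H) : rk b x (c • y) = (starRingEnd ℂ c) • rk b x y := by
  apply sp_ext
  intro z
  show tOp (rk b x (c • y)) z = (starRingEnd ℂ c) • tOp (rk b x y) z
  rw [tOp_rk, tOp_rk, inner_smul_left, smul_smul]

lemma rk_mul_rk (x y z w : H) : rk b x y * rk b z w = ⟪y, z⟫_ℂ • rk b x w := by
  rw [mul_rk, tOp_rk, rk_smul_left]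

lemma rk_zero_left (y : H) : rk b 0 y = 0 := by
  have := rk_smul_left (b := b) 0 0 y
  simpa using this

lemma rk_zero_right (x : H) : rk b x 0 = 0 := by
  have := rk_smul_right (b := b) 0 x 0
  simpa using this

lemma rk_sub_left (x x' y : H) : rk b (x - x') y = rk b x y - rk b x' y := by
  have h := rk_add_left (b := b) (x - x') x' y
  rw [sub_add_cancel] at h
  rw [h, add_sub_cancel_right]

/-- Every element of `S_1` is an absolutely convergent sum of rank one operators. -/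
lemma exists_decomp (c : SP b 1) : ∃ (κ : Type u) (x y : κ → H),
    Summable (fun k => ‖x k‖ * ‖y k‖) ∧ HasSum (fun k => rk b (x k) (y k)) c := by
  obtain ⟨κ, v, lam, hv⟩ := exists_eigenbasis' (Cpt.of_compact (tOp_mem c).1).1
  have hlam : ∀ k, lam k = ‖tOp c (v k)‖ ^ 2 := fun k => eigen_nonneg v hv k
  refine ⟨κ, fun k => tOp c (v k), fun k => v k, ?_, ?_⟩
  · have h1 := (tOp_mem c).2
    rw [trAbsPow_eq b v hv one_pos] at h1
    have h2 := ENNReal.summable_toReal h1.ne
    refine h2.congr fun k => ?_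
    rw [v.orthonormal.1 k, mul_one, hlam, rpow_two_mul_half (norm_nonneg _), Real.rpow_one,
      ENNReal.toReal_ofReal (norm_nonneg _)]
  · have h1 := (tOp_mem c).2
    rw [trAbsPow_eq b v hv one_pos] at h1
    have h2 := ENNReal.summable_toReal h1.ne
    have hs : Summable (fun k => rk b (tOp c (v k)) (v k)) := by
      refine Summable.of_norm_bounded h2 fun k => ?_
      refine le_trans (norm_rk _ _) ?_
      rw [v.orthonormal.1 k, mul_one, hlam, rpow_two_mul_half (norm_nonneg _), Real.rpow_one,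
        ENNReal.toReal_ofReal (norm_nonneg _)]
    have h3 : ∑' k, rk b (tOp c (v k)) (v k) = c := by
      apply sp_ext
      intro z
      have h4 := (hs.hasSum.mapL (tOpL (b := b) (p := 1))).mapL (ContinuousLinearMap.apply ℂ H z)
      have h5 : HasSum (fun k => ⟪v k, z⟫_ℂ • tOp c (v k))
          (tOp (∑' k, rk b (tOp c (v k)) (v k)) z) := by
        have h4' : HasSum (fun k => tOp (rk b (tOp c (v k)) (v k)) z)
          (tOp (∑' k, rk b (tOp c (v k)) (v k)) z) := h4
        simpa only [tOp_rk] using h4'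
      have h6 := (v.hasSum_repr z).mapL (tOp c)
      have h7 : HasSum (fun k => ⟪v k, z⟫_ℂ • tOp c (v k)) (tOp c z) := by
        convert h6 using 1
        funext k
        rw [map_smul, HilbertBasis.repr_apply_apply]
      exact h5.unique h7
    have h8 := hs.hasSum
    rw [h3] at h8
    exact h8

variable (b) in
/-- The partial sums of the expansion of `x`. -/
noncomputable def Pv (n : ℕ) (x : H) : H := ∑ j ∈ Finset.range n, ⟪b j, x⟫_ℂ • b j

lemma Pv_tendsto (x : H) : Tendsto (fun n => Pv b n x) atTop (𝓝 x) := by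
  have h := (b.hasSum_repr x).tendsto_sum_nat
  refine h.congr fun n => ?_
  unfold Pv
  refine Finset.sum_congr rfl fun j _ => ?_
  rw [HilbertBasis.repr_apply_apply]

lemma norm_Pv_le (n : ℕ) (x : H) : ‖Pv b n x‖ ≤ ‖x‖ := by
  have h1 : ‖Pv b n x‖ ^ 2 = ∑ j ∈ Finset.range n, ‖⟪b j, x⟫_ℂ‖ ^ 2 := by
    have h2 := b.orthonormal.inner_sum (fun j => ⟪b j, x⟫_ℂ) (fun j => ⟪b j, x⟫_ℂ)
      (Finset.range n)
    have h3 : ⟪Pv b n x, Pv b n x⟫_ℂ = ((∑ j ∈ Finset.range n, ‖⟪b j, x⟫_ℂ‖ ^ 2 : ℝ) : ℂ) := by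
      unfold Pv
      rw [h2]
      push_cast
      refine Finset.sum_congr rfl fun j _ => ?_
      rw [mul_comm, RCLike.mul_conj]
      rfl
    rw [inner_self_eq_norm_sq_to_K] at h3
    have h4 : ((‖Pv b n x‖ ^ 2 : ℝ) : ℂ) =
        ((∑ j ∈ Finset.range n, ‖⟪b j, x⟫_ℂ‖ ^ 2 : ℝ) : ℂ) := by
      rw [← h3]
      push_cast
      rfl
    exact_mod_cast h4
  have h5 : ‖Pv b n x‖ ^ 2 ≤ ‖x‖ ^ 2 := by
    rw [h1]
    exact b.orthonormal.sum_inner_products_le x
  exact (sq_le_sq₀ (norm_nonneg _) (norm_nonneg _)).1 h5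

variable (b) in
/-- The projection onto the first `n` basis vectors. -/
noncomputable def Pn (n : ℕ) : SP b 1 := ∑ j ∈ Finset.range n, rk b (b j) (b j)

lemma Pn_mul_rk (n : ℕ) (x y : H) : Pn b n * rk b x y = rk b (Pv b n x) y := by
  unfold Pn Pv
  rw [Finset.sum_mul]
  induction n with
  | zero => simp [rk_zero_left]
  | succ n ih =>
    rw [Finset.sum_range_succ, Finset.sum_range_succ, rk_add_left, ← ih, rk_mul_rk, rk_smul_left]

lemma Pn_mul_tendsto (c : SP b 1) : Tendsto (fun n => Pn b n * c) atTop (𝓝 c) := by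
  obtain ⟨κ, x, y, hs, hc⟩ := exists_decomp c
  have h1 : ∀ n, Pn b n * c = ∑' k, rk b (Pv b n (x k)) (y k) := by
    intro n
    have h2 := (hc.mapL (ContinuousLinearMap.mul ℂ (SP b 1) (Pn b n))).tsum_eq
    rw [ContinuousLinearMap.mul_apply'] at h2
    rw [← h2]
    congr 1
    funext k
    rw [ContinuousLinearMap.mul_apply', Pn_mul_rk]
  simp only [h1]
  rw [← hc.tsum_eq]
  refine tendsto_tsum_of_dominated_convergence hs (fun k => ?_) (Eventually.of_forall fun n k => ?_)
  · rw [tendsto_iff_norm_sub_tendsto_zero]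
    have h3 : Tendsto (fun n => ‖Pv b n (x k) - x k‖ * ‖y k‖) atTop (𝓝 (0 * ‖y k‖)) := by
      refine Tendsto.mul_const _ ?_
      exact tendsto_iff_norm_sub_tendsto_zero.1 (Pv_tendsto (x k))
    rw [zero_mul] at h3
    refine squeeze_zero (fun _ => norm_nonneg _) (fun n => ?_) h3
    rw [← rk_sub_left]
    exact norm_rk _ _
  · refine le_trans (norm_rk _ _) ?_
    exact mul_le_mul_of_nonneg_right (norm_Pv_le n _) (norm_nonneg _)

section Der

variable {X : Type v} [NormedAddCommGroup X] [NormedSpace ℂ X] (M : Bimod (SP b 1) X)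
  (D : SP b 1 →L[ℂ] (X →L[ℂ] ℂ))

lemma dl_add (a a' : SP b 1) (f : X →L[ℂ] ℂ) : M.dl (a + a') f = M.dl a f + M.dl a' f := by
  ext x
  rw [add_apply, Bimod.dl_apply, Bimod.dl_apply, Bimod.dl_apply, map_add, add_apply, map_add]

lemma dl_smul (c : ℂ) (a : SP b 1) (f : X →L[ℂ] ℂ) : M.dl (c • a) f = c • M.dl a f := by
  ext x
  rw [smul_apply, Bimod.dl_apply, Bimod.dl_apply, map_smul, smul_apply, map_smul]

lemma dl_add' (a : SP b 1) (f f' : X →L[ℂ] ℂ) : M.dl a (f + f') = M.dl a f + M.dl a f' := rfl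

lemma dl_smul' (c : ℂ) (a : SP b 1) (f : X →L[ℂ] ℂ) : M.dl a (c • f) = c • M.dl a f := rfl

lemma dl_mul (a a' : SP b 1) (f : X →L[ℂ] ℂ) : M.dl (a * a') f = M.dl a (M.dl a' f) := by
  ext x
  rw [Bimod.dl_apply, Bimod.dl_apply, Bimod.dl_apply, M.R_mul]

lemma dl_dr (a c : SP b 1) (f : X →L[ℂ] ℂ) : M.dr (M.dl a f) c = M.dl a (M.dr f c) := by
  ext x
  rw [Bimod.dr_apply, Bimod.dl_apply, Bimod.dl_apply, Bimod.dr_apply, M.L_R]

lemma norm_dl_le (a : SP b 1) (f : X →L[ℂ] ℂ) : ‖M.dl a f‖ ≤ ‖M.R‖ * ‖a‖ * ‖f‖ := by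
  refine le_trans (ContinuousLinearMap.opNorm_comp_le f (M.R a)) ?_
  rw [mul_comm]
  exact mul_le_mul_of_nonneg_right (M.R.le_opNorm a) (norm_nonneg _)

/-- `θ(x,y) = |x⟩⟨e_0| · D(|e_0⟩⟨y|)`. -/
noncomputable def th (x y : H) : X →L[ℂ] ℂ := M.dl (rk b x (b 0)) (D (rk b (b 0) y))

lemma th_norm (x y : H) : ‖th M D x y‖ ≤ (‖M.R‖ * ‖D‖) * (‖x‖ * ‖y‖) := by
  refine le_trans (norm_dl_le M _ _) ?_
  have h0 : ‖b 0‖ = 1 := b.orthonormal.1 0
  have h1 : ‖rk b x (b 0)‖ ≤ ‖x‖ := by
    have := norm_rk (b := b) x (b 0)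
    rwa [h0, mul_one] at this
  have h2 : ‖D (rk b (b 0) y)‖ ≤ ‖D‖ * ‖y‖ := by
    refine le_trans (D.le_opNorm _) ?_
    refine mul_le_mul_of_nonneg_left ?_ (norm_nonneg _)
    have := norm_rk (b := b) (b 0) y
    rwa [h0, one_mul] at this
  calc ‖M.R‖ * ‖rk b x (b 0)‖ * ‖D (rk b (b 0) y)‖ ≤ ‖M.R‖ * ‖x‖ * (‖D‖ * ‖y‖) := by gcongr
    _ = _ := by ring

lemma th_add_left (x x' y : H) : th M D (x + x') y = th M D x y + th M D x' y := by
  unfold th
  rw [rk_add_left, dl_add]

lemma th_smul_left (c : ℂ) (x y : H) : th M D (c • x) y = c • th M D x y := by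
  unfold th
  rw [rk_smul_left, dl_smul]

lemma th_add_right (x y y' : H) : th M D x (y + y') = th M D x y + th M D x y' := by
  unfold th
  rw [rk_add_right, map_add, dl_add']

lemma th_smul_right (c : ℂ) (x y : H) : th M D x (c • y) = (starRingEnd ℂ c) • th M D x y := by
  unfold th
  rw [rk_smul_right, map_smul, dl_smul']

lemma th_zero_left (y : H) : th M D 0 y = 0 := by
  unfold th
  rw [rk_zero_left]
  ext t
  rw [Bimod.dl_apply]
  simp

lemma th_zero_right (x : H) : th M D x 0 = 0 := by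
  unfold th
  rw [rk_zero_right]
  ext t
  rw [Bimod.dl_apply]
  simp

/-- `ξ_n = ∑_{j<n} e_{j0} · D(e_{0j})`. -/
noncomputable def xin (n : ℕ) : X →L[ℂ] ℂ := ∑ j ∈ Finset.range n, th M D (b j) (b j)

/-- the error term `P_n · D(c) + ξ_n · c - c · ξ_n` as a bounded operator in `c` -/
noncomputable def EL (n : ℕ) : SP b 1 →L[ℂ] (X →L[ℂ] ℂ) :=
  ((ContinuousLinearMap.compL ℂ X X ℂ).flip (M.R (Pn b n))).comp D +
    ((ContinuousLinearMap.compL ℂ X X ℂ) (xin M D n)).comp M.L -
    ((ContinuousLinearMap.compL ℂ X X ℂ) (xin M D n)).comp M.R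

lemma EL_apply (n : ℕ) (c : SP b 1) :
    EL M D n c = M.dl (Pn b n) (D c) + M.dr (xin M D n) c - M.dl c (xin M D n) := rfl

lemma EL_rk (hD : M.IsDerivation D) (n : ℕ) (x y : H) :
    EL M D n (rk b x y) = th M D (Pv b n x) y - th M D x (Pv b n y) := by
  rw [EL_apply]
  have h1 : M.dl (Pn b n) (D (rk b x y)) + M.dr (xin M D n) (rk b x y) = th M D (Pv b n x) y := by
    induction n with
    | zero =>
      simp only [Pn, xin, Pv, Finset.range_zero, Finset.sum_empty]
      rw [th_zero_left]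
      ext t
      rw [add_apply, Bimod.dl_apply, Bimod.dr_apply]
      simp
    | succ n ih =>
      have e1 : Pn b (n + 1) = Pn b n + rk b (b n) (b n) := Finset.sum_range_succ _ _
      have e2 : xin M D (n + 1) = xin M D n + th M D (b n) (b n) := Finset.sum_range_succ _ _
      have e3 : Pv b (n + 1) x = Pv b n x + ⟪b n, x⟫_ℂ • b n := Finset.sum_range_succ _ _
      rw [e1, e2, e3, dl_add, th_add_left, ← ih]
      have e4 : M.dr (xin M D n + th M D (b n) (b n)) (rk b x y) =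
          M.dr (xin M D n) (rk b x y) + M.dr (th M D (b n) (b n)) (rk b x y) := rfl
      rw [e4]
      have e5 : M.dl (rk b (b n) (b n)) (D (rk b x y)) + M.dr (th M D (b n) (b n)) (rk b x y) =
          th M D (⟪b n, x⟫_ℂ • b n) y := by
        have e6 : rk b (b n) (b n) = rk b (b n) (b 0) * rk b (b 0) (b n) := by
          rw [rk_mul_rk, inner_self_eq_norm_sq_to_K, b.orthonormal.1 0]
          simp
        unfold th
        rw [dl_dr, e6, dl_mul, ← dl_add', ← hD, rk_mul_rk, map_smul, dl_smul', rk_smul_left,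
          dl_smul]
      rw [← e5]
      abel
  have h2 : M.dl (rk b x y) (xin M D n) = th M D x (Pv b n y) := by
    clear h1
    induction n with
    | zero =>
      simp only [xin, Pv, Finset.range_zero, Finset.sum_empty]
      rw [th_zero_right]
      ext t
      rw [Bimod.dl_apply]
      simp
    | succ n ih =>
      have e2 : xin M D (n + 1) = xin M D n + th M D (b n) (b n) := Finset.sum_range_succ _ _
      have e3 : Pv b (n + 1) y = Pv b n y + ⟪b n, y⟫_ℂ • b n := Finset.sum_range_succ _ _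
      rw [e2, e3, dl_add', th_add_right, ih]
      congr 1
      rw [th_smul_right, inner_conj_symm]
      unfold th
      rw [← dl_mul, rk_mul_rk, dl_smul]
  rw [h1, h2]

lemma EL_tendsto (hD : M.IsDerivation D) (c : SP b 1) :
    Tendsto (fun n => EL M D n c) atTop (𝓝 0) := by
  obtain ⟨κ, x, y, hs, hc⟩ := exists_decomp c
  have h1 : ∀ n, EL M D n c = ∑' k, (th M D (Pv b n (x k)) (y k) - th M D (x k) (Pv b n (y k))) := by
    intro n
    have h2 := (hc.mapL (EL M D n)).tsum_eq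
    rw [← h2]
    congr 1
    funext k
    rw [EL_rk M D hD]
  simp only [h1]
  have h0 : (0 : X →L[ℂ] ℂ) = ∑' k : κ, (0 : X →L[ℂ] ℂ) := by simp
  rw [h0]
  have hs' : Summable fun k => (2 * (‖M.R‖ * ‖D‖)) * (‖x k‖ * ‖y k‖) := hs.mul_left _
  refine tendsto_tsum_of_dominated_convergence hs' (fun k => ?_)
    (Eventually.of_forall fun n k => ?_)
  · have h3 : Tendsto (fun n => (‖M.R‖ * ‖D‖) * (‖Pv b n (x k) - x k‖ * ‖y k‖) +
        (‖M.R‖ * ‖D‖) * (‖x k‖ * ‖Pv b n (y k) - y k‖)) atTop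
        (𝓝 ((‖M.R‖ * ‖D‖) * (0 * ‖y k‖) + (‖M.R‖ * ‖D‖) * (‖x k‖ * 0))) := by
      refine Tendsto.add ?_ ?_
      · refine Tendsto.const_mul _ (Tendsto.mul_const _ ?_)
        exact tendsto_iff_norm_sub_tendsto_zero.1 (Pv_tendsto (x k))
      · refine Tendsto.const_mul _ (Tendsto.const_mul _ ?_)
        exact tendsto_iff_norm_sub_tendsto_zero.1 (Pv_tendsto (y k))
    simp only [zero_mul, mul_zero, add_zero] at h3
    refine squeeze_zero_norm (fun n => ?_) h3
    have e1 : th M D (Pv b n (x k)) (y k) - th M D (x k) (Pv b n (y k)) =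
        th M D (Pv b n (x k) - x k) (y k) - th M D (x k) (Pv b n (y k) - y k) := by
      have e2 : th M D (Pv b n (x k)) (y k) =
          th M D (Pv b n (x k) - x k) (y k) + th M D (x k) (y k) := by
        rw [← th_add_left, sub_add_cancel]
      have e3 : th M D (x k) (Pv b n (y k)) =
          th M D (x k) (Pv b n (y k) - y k) + th M D (x k) (y k) := by
        rw [← th_add_right, sub_add_cancel]
      rw [e2, e3]
      abel
    rw [e1]
    exact le_trans (norm_sub_le _ _) (add_le_add (th_norm M D _ _) (th_norm M D _ _))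
  · refine le_trans (norm_sub_le _ _) ?_
    have h4 := th_norm M D (Pv b n (x k)) (y k)
    have h5 := th_norm M D (x k) (Pv b n (y k))
    have h6 : ‖Pv b n (x k)‖ * ‖y k‖ ≤ ‖x k‖ * ‖y k‖ :=
      mul_le_mul_of_nonneg_right (norm_Pv_le n _) (norm_nonneg _)
    have h7 : ‖x k‖ * ‖Pv b n (y k)‖ ≤ ‖x k‖ * ‖y k‖ :=
      mul_le_mul_of_nonneg_left (norm_Pv_le n _) (norm_nonneg _)
    have hK : 0 ≤ ‖M.R‖ * ‖D‖ := by positivity
    have h8 := mul_le_mul_of_nonneg_left h6 hK
    have h9 := mul_le_mul_of_nonneg_left h7 hK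
    linarith

end Der

theorem asa_one : ApproxSemiAmenable.{u, v} (SP b 1) := by
  intro X _ _ _ M D hD
  refine (approxSemiInner_iff M D).2 fun F ε hε => ?_
  have key : ∀ a ∈ F, ∀ᶠ n in atTop,
      ‖D a - (M.dl a (xin M D n) - M.dr (xin M D n - D (Pn b n)) a)‖ < ε := by
    intro a _
    have h1 : Tendsto (fun n => (D a - D (Pn b n * a)) + EL M D n a) atTop
        (𝓝 ((D a - D a) + 0)) := by
      refine Tendsto.add ?_ (EL_tendsto M D hD a)
      refine Tendsto.sub tendsto_const_nhds ?_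
      exact (D.continuous.tendsto a).comp (Pn_mul_tendsto a)
    rw [sub_self, add_zero] at h1
    have h2 := (tendsto_zero_iff_norm_tendsto_zero.1 h1).eventually (gt_mem_nhds hε)
    filter_upwards [h2] with n hn
    have h3 : D a - (M.dl a (xin M D n) - M.dr (xin M D n - D (Pn b n)) a) =
        (D a - D (Pn b n * a)) + EL M D n a := by
      rw [EL_apply, hD (Pn b n) a]
      have h4 : M.dr (xin M D n - D (Pn b n)) a = M.dr (xin M D n) a - M.dr (D (Pn b n)) a := rfl
      rw [h4]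
      abel
    rw [h3]
    exact hn
  obtain ⟨n, hn⟩ := ((Filter.eventually_all_finset F).2 key).exists
  exact ⟨xin M D n, xin M D n - D (Pn b n), hn⟩

end One

end Pool.Agent.H77SP
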